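import Mathlib

/-!
# Plane curves
-/

namespace Pool.Agent.Helper9.FT

/-- The coordinate ring of a hypersurface in an affine space of dimension at most two has
dimension at most one. -/
theorem dim_plane_le {k : Type} [Field k] {σ : Type} [Fintype σ] (hσ : Fintype.card σ ≤ 2)
    {h : MvPolynomial σ k} (hh : h ≠ 0) :
    ringKrullDim (MvPolynomial σ k ⧸ Ideal.span {h}) ≤ 1 := by
  have h1 := ringKrullDim_quotient_succ_le_of_nonZeroDivisor (mem_nonZeroDivisors_of_ne_zero hh)
  have h2 : ringKrullDim (MvPolynomial σ k) ≤ 2 := by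
    rw [MvPolynomial.ringKrullDim_of_isNoetherianRing, ringKrullDim_eq_zero_of_field, zero_add]
    have h3 : Nat.card σ ≤ 2 := by rwa [Nat.card_eq_fintype_card]
    exact_mod_cast h3
  have h3 := h1.trans h2
  generalize ringKrullDim (MvPolynomial σ k ⧸ Ideal.span {h}) = x at h3 ⊢
  induction x with
  | bot => exact bot_le
  | coe n =>
    have h3 : n + 1 ≤ 2 := WithBot.coe_le_coe.1 h3
    have h4 : n ≤ 1 := by
      have h5 : n + 1 ≤ 1 + 1 := by
        rw [show (1 : ℕ∞) + 1 = 2 by norm_num]; exact h3
      exact (ENat.add_le_add_iff_right (by simp)).1 h5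
    exact_mod_cast h4

end Pool.Agent.Helper9.FT
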