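import Pool.Agent.Helper9.FT.Diag

/-!
# Exponents whose affine span has dimension at most two
-/

namespace Pool.Agent.Helper9.FT

/-- casting integer vectors to rational vectors -/
def castVec {V : Type*} (b : V → ℤ) : V → ℚ := fun v => (b v : ℚ)

theorem castVec_sum {V I : Type*} (s : Finset I) (c : I → ℤ) (b : I → V → ℤ) :
    castVec (∑ i ∈ s, c i • b i) = ∑ i ∈ s, (c i : ℚ) • castVec (b i) := by
  funext v
  simp only [castVec, Finset.sum_apply, Pi.smul_apply, smul_eq_mul]
  push_cast
  rfl

theorem castVec_injective {V : Type*} : Function.Injective (castVec (V := V)) := by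
  intro a b h
  funext v
  have := congrFun h v
  simp only [castVec] at this
  exact_mod_cast this

/-- integer vectors which are independent over the integers are independent over `ℚ` -/
theorem linearIndependent_castVec {V I : Type*} [Fintype I] {b : I → V → ℤ}
    (h : LinearIndependent ℤ b) : LinearIndependent ℚ (fun i => castVec (b i)) := by
  rw [Fintype.linearIndependent_iff]
  intro g hg i
  obtain ⟨d, hd⟩ := IsLocalization.exist_integer_multiples_of_finset (nonZeroDivisors ℤ)
    (Finset.univ.image g)
  have h1 : ∀ i, ∃ n : ℤ, (n : ℚ) = (d : ℤ) * g i := by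
    intro i
    obtain ⟨n, hn⟩ := hd (g i) (Finset.mem_image_of_mem _ (Finset.mem_univ i))
    refine ⟨n, ?_⟩
    rw [← zsmul_eq_mul]
    exact hn
  choose n hn using h1
  have h2 : ∑ i, n i • b i = 0 := by
    apply castVec_injective
    rw [castVec_sum]
    have h3 : ∑ i, (n i : ℚ) • castVec (b i) = ((d : ℤ) : ℚ) • ∑ i, g i • castVec (b i) := by
      rw [Finset.smul_sum]
      refine Finset.sum_congr rfl fun i _ => ?_
      rw [hn, mul_smul]
    rw [h3, hg, smul_zero]
    funext v
    simp [castVec]
  have h4 := (Fintype.linearIndependent_iff.1 h) n h2 i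
  have h5 := hn i
  rw [h4, Int.cast_zero] at h5
  have h6 : ((d : ℤ) : ℚ) ≠ 0 := by
    exact_mod_cast nonZeroDivisors.coe_ne_zero d
  exact (mul_eq_zero.1 h5.symm).resolve_left h6

/-- Integer vectors spanning a rational vector space of dimension at most `r` lie in the span of
at most `r` members of a basis of the lattice. -/
theorem exists_planar {V I : Type*} [Fintype V] [DecidableEq V] (b : I → V → ℤ) :
    ∃ (ρ : ℕ) (f : Fin ρ ↪ V) (P R : V → V → ℤ) (z : I → Fin ρ → ℤ),
      ρ ≤ Module.finrank ℚ (Submodule.span ℚ (Set.range fun i => castVec (b i))) ∧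
      (∀ v w, ∑ i, R v i * P i w = if v = w then 1 else 0) ∧
      (∀ i j, ∑ v, P i v * R v j = if i = j then 1 else 0) ∧
      (∀ i, b i = ∑ j, z i j • P (f j)) := by
  classical
  let N : Submodule ℤ (V → ℤ) := Submodule.span ℤ (Set.range b)
  obtain ⟨n, bM, bN, f, a, snf⟩ := Submodule.smithNormalForm (Pi.basisFun ℤ V) N
  obtain ⟨R, hRP, hPR⟩ := basis_inv bM
  refine ⟨n, f, fun i => bM i, R,
    fun i j => bN.repr ⟨b i, Submodule.subset_span ⟨i, rfl⟩⟩ j * a j, ?_, hRP, hPR, ?_⟩
  · have h1 : LinearIndependent ℤ (fun j => (bN j : V → ℤ)) :=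
      bN.linearIndependent.map' N.subtype (Submodule.ker_subtype N)
    have h2 := linearIndependent_castVec h1
    have h3 : ∀ j, castVec (bN j : V → ℤ) ∈
        Submodule.span ℚ (Set.range fun i => castVec (b i)) := by
      intro j
      have h4 : (bN j : V → ℤ) ∈ N := (bN j).2
      generalize (bN j : V → ℤ) = x at h4
      induction h4 using Submodule.span_induction with
      | mem x hx =>
        obtain ⟨i, rfl⟩ := hx
        exact Submodule.subset_span ⟨i, rfl⟩
      | zero =>
        have : castVec (0 : V → ℤ) = 0 := by funext v; simp [castVec]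
        rw [this]
        exact Submodule.zero_mem _
      | add x y _ _ hx hy =>
        have : castVec (x + y) = castVec x + castVec y := by funext v; simp [castVec]
        rw [this]
        exact Submodule.add_mem _ hx hy
      | smul c x _ hx =>
        have : castVec (c • x) = (c : ℚ) • castVec x := by funext v; simp [castVec]
        rw [this]
        exact Submodule.smul_mem _ _ hx
    have h5 : LinearIndependent ℚ (fun j => (⟨castVec (bN j : V → ℤ), h3 j⟩ :
        Submodule.span ℚ (Set.range fun i => castVec (b i)))) := by
      apply LinearIndependent.of_comp (Submodule.subtype _)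
      exact h2
    have h6 : Module.Finite ℚ (Submodule.span ℚ (Set.range fun i => castVec (b i))) := by
      infer_instance
    have h7 := h5.fintype_card_le_finrank
    rwa [Fintype.card_fin] at h7
  · intro i
    have h1 := bN.sum_repr ⟨b i, Submodule.subset_span ⟨i, rfl⟩⟩
    have h2 := congrArg (fun y : N => (y : V → ℤ)) h1
    simp only [Submodule.coe_sum, Submodule.coe_smul] at h2
    rw [← h2]
    refine Finset.sum_congr rfl fun j _ => ?_
    rw [snf j, mul_smul]

/-- At most three vectors are independent or span a space of dimension at most two. -/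
theorem indep_or_planar {V I : Type*} [Finite V] [Fintype I] (hI : Fintype.card I ≤ 3)
    (b : I → V → ℤ) : LinearIndependent ℚ (fun i s => (b i s : ℚ)) ∨
      Module.finrank ℚ (Submodule.span ℚ (Set.range fun i => castVec (b i))) ≤ 2 := by
  by_cases h : LinearIndependent ℚ (fun i => castVec (b i))
  · exact Or.inl h
  · right
    have h1 : Module.finrank ℚ (Submodule.span ℚ (Set.range fun i => castVec (b i))) <
        Fintype.card I := by
      rcases lt_or_ge (Module.finrank ℚ (Submodule.span ℚ (Set.range fun i => castVec (b i))))
        (Fintype.card I) with h2 | h2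
      · exact h2
      · exact absurd (linearIndependent_iff_card_le_finrank_span.2 h2) h
    omega

end Pool.Agent.Helper9.FT
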