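import Pool.Agent.Helper9.FT.Cochar
import Pool.Agent.Helper9.FT.Planar

/-!
# Lattice lemmas, final forms
-/

namespace Pool.Agent.Helper9.FT

theorem cochar_rat {J V : Type} [Fintype J] [Fintype V] [DecidableEq J] (b : J → V → ℤ)
    (h : LinearIndependent ℚ (fun j v => (b j v : ℚ))) :
    ∃ (e : ℕ) (L : J → V → ℤ), e ≠ 0 ∧
      ∀ i j, ∑ v, L i v * b j v = if i = j then (e : ℤ) else 0 := by
  obtain ⟨e, L, he, hL⟩ := exists_dual_nat b h
  refine ⟨e, L, ?_, hL⟩
  rintro rfl
  exact he (by simp)

theorem diag_data {V L : Type} [Fintype V] (c : L → V → ℤ) :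
    ∃ (κ : Type) (_ : Fintype κ) (q : κ → ℕ) (P : κ → V → ℤ) (R : V → κ → ℤ),
      ∀ (G : Type) [CommGroup G],
        (∀ u : V → G, (∀ l, ∏ v, u v ^ c l v = 1) →
          (∀ i, (∏ v, u v ^ P i v) ^ q i = 1) ∧
          ∀ v, ∏ i, (∏ v', u v' ^ P i v') ^ R v i = u v) ∧
        (∀ y : κ → G, (∀ i, y i ^ q i = 1) →
          (∀ l, ∏ v, (∏ i, y i ^ R v i) ^ c l v = 1) ∧
          ∀ i, ∏ v, (∏ i', y i' ^ R v i') ^ P i v = y i) := by
  classical
  obtain ⟨q, P, R, hRP, hPR, h⟩ := exists_diag c
  refine ⟨V, inferInstance, q, P, R, ?_⟩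
  intro G _
  constructor
  · intro u hu
    exact ⟨(h G u).1 hu, fun v => mon_inv P R hRP u v⟩
  · intro y hy
    have h1 : ∀ i, mon (fun v => mon y (R v)) (P i) = y i := fun i => mon_inv R P hPR y i
    refine ⟨(h G (fun v => mon y (R v))).2 (fun i => ?_), h1⟩
    rw [h1]
    exact hy i

theorem planar_basis {A V : Type} [Finite A] [Fintype V] (v : A → V → ℤ) (a0 : A)
    (h : Module.finrank ℚ (Submodule.span ℚ
      (Set.range fun a i => ((v a i - v a0 i : ℤ) : ℚ))) ≤ 2) :
    ∃ (r : ℕ) (b : Fin r → V → ℤ) (x : A → Fin r → ℤ), r ≤ 2 ∧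
      LinearIndependent ℚ (fun j i => (b j i : ℚ)) ∧
      (∀ a i, v a i - v a0 i = ∑ j, x a j * b j i) ∧
      ∀ i, (∀ a, v a i = v a0 i) → ∀ j, b j i = 0 := by
  classical
  let d : A → V → ℤ := fun a i => v a i - v a0 i
  let N : Submodule ℤ (V → ℤ) := Submodule.span ℤ (Set.range d)
  obtain ⟨n, bM, bN, f, a, snf⟩ := Submodule.smithNormalForm (Pi.basisFun ℤ V) N
  have h1 : LinearIndependent ℤ (fun j => (bN j : V → ℤ)) :=
    bN.linearIndependent.map' N.subtype (Submodule.ker_subtype N)
  have h2 := linearIndependent_castVec h1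
  have h3 : ∀ j, castVec (bN j : V → ℤ) ∈
      Submodule.span ℚ (Set.range fun a i => ((v a i - v a0 i : ℤ) : ℚ)) := by
    intro j
    have h4 : (bN j : V → ℤ) ∈ N := (bN j).2
    generalize (bN j : V → ℤ) = x at h4
    induction h4 using Submodule.span_induction with
    | mem x hx =>
      obtain ⟨i, rfl⟩ := hx
      exact Submodule.subset_span ⟨i, rfl⟩
    | zero =>
      have : castVec (0 : V → ℤ) = 0 := by funext v; simp [castVec]
      rw [this]
      exact Submodule.zero_mem _
    | add x y _ _ hx hy =>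
      have : castVec (x + y) = castVec x + castVec y := by funext v; simp [castVec]
      rw [this]
      exact Submodule.add_mem _ hx hy
    | smul c x _ hx =>
      have : castVec (c • x) = (c : ℚ) • castVec x := by funext v; simp [castVec]
      rw [this]
      exact Submodule.smul_mem _ _ hx
  have h5 : LinearIndependent ℚ (fun j => (⟨castVec (bN j : V → ℤ), h3 j⟩ :
      Submodule.span ℚ (Set.range fun a i => ((v a i - v a0 i : ℤ) : ℚ)))) := by
    apply LinearIndependent.of_comp (Submodule.subtype _)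
    exact h2
  have h7 := h5.fintype_card_le_finrank
  rw [Fintype.card_fin] at h7
  refine ⟨n, fun j => (bN j : V → ℤ),
    fun i j => bN.repr ⟨d i, Submodule.subset_span ⟨i, rfl⟩⟩ j, h7.trans h, h2, ?_, ?_⟩
  · intro i w
    have h1 := bN.sum_repr ⟨d i, Submodule.subset_span ⟨i, rfl⟩⟩
    have h2 := congrArg (fun y : N => (y : V → ℤ) w) h1
    simp only [Submodule.coe_sum, Submodule.coe_smul, Finset.sum_apply, Pi.smul_apply,
      smul_eq_mul] at h2
    exact h2.symm
  · intro i hi j
    have h4 : (bN j : V → ℤ) ∈ N := (bN j).2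
    change (bN j : V → ℤ) i = 0
    generalize (bN j : V → ℤ) = x at h4
    induction h4 using Submodule.span_induction with
    | mem x hx =>
      obtain ⟨a, rfl⟩ := hx
      exact sub_eq_zero.2 (hi a)
    | zero => rfl
    | add x y _ _ hx hy => rw [Pi.add_apply, hx, hy, add_zero]
    | smul c x _ hx => rw [Pi.smul_apply, hx, smul_zero]

/-- At most four points are affinely independent or span an affine space of dimension at most
two. -/
theorem four_points {V A : Type} [Fintype A] (hA : Fintype.card A ≤ 4) (v : A → V → ℚ) :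
    AffineIndependent ℚ v ∨ Module.finrank ℚ (vectorSpan ℚ (Set.range v)) ≤ 2 := by
  by_cases h : AffineIndependent ℚ v
  · exact Or.inl h
  · right
    by_contra h1
    push Not at h1
    apply h
    rw [affineIndependent_iff_le_finrank_vectorSpan ℚ v (n := 3) ?_]
    · omega
    · have h2 : Nonempty A := by
        by_contra h3
        rw [not_nonempty_iff] at h3
        apply h
        exact affineIndependent_of_subsingleton ℚ v
      have h4 : 0 < Fintype.card A := Fintype.card_pos
      have h3 := finrank_vectorSpan_range_le ℚ v (n := Fintype.card A - 1) (by omega)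
      omega

/-- The same with differences. -/
theorem finrank_differences {V A : Type} [Fintype A] (v : A → V → ℚ) (a0 : A) :
    Module.finrank ℚ (Submodule.span ℚ (Set.range fun a i => v a i - v a0 i)) =
      Module.finrank ℚ (vectorSpan ℚ (Set.range v)) := by
  rw [vectorSpan_range_eq_span_range_vsub_right ℚ v a0]
  rfl

end Pool.Agent.Helper9.FT
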