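import Pool.Agent.Helper65.Mor.MorinDefs

/-!
# Systems of equations of low torus complexity and their compositions
-/

namespace Pool.Agent.Helper9.FT

open MvPolynomial AlgebraicGeometry CategoryTheory TensorProduct
open Pool.Agent.Helper65.Mor (Arithmetic ClosedOpen CurveProduct)

/-- The coordinate ring of the locus where the equations `S` hold, the coordinates in `s` are
invertible and the other coordinates vanish. -/
abbrev Stratum {k : Type} [Field k] {ι : Type} (S : Set (MvPolynomial ι k)) (s : Finset ι) :
    Type :=
  Localization.Away (∏ i ∈ s, Ideal.Quotient.mk (Ideal.span (S ∪ X '' {i | i ∉ s})) (X i))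

/-- The rational vector space spanned by the differences of the exponents of those monomials in
the variables from `s` which occur in one and the same equation of `S`. -/
def Differences {k : Type} [Field k] {ι : Type} (S : Set (MvPolynomial ι k)) (s : Finset ι) :
    Submodule ℚ (ι → ℚ) :=
  Submodule.span ℚ {v | ∃ f ∈ S, ∃ a ∈ f.support, ∃ b ∈ f.support, a.support ⊆ s ∧
    b.support ⊆ s ∧ v = fun i => (a i : ℚ) - (b i : ℚ)}

/-- Systems of polynomial equations over `k` in finitely many variables, closed under composition.
The field `F` controls which degrees and exponents are admissible. -/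
inductive System (k : Type) [Field k] (F : Type) [Field F] :
    (ι : Type) → Set (MvPolynomial ι k) → Prop
  /-- every stratum has torus complexity at most one -/
  | torus (ι : Type) [Finite ι] (S : Set (MvPolynomial ι k)) :
      (∀ s : Finset ι, ringKrullDim (Stratum S s) + Module.finrank ℚ (Differences S s) ≤
        s.card + 1) → System k F ι S
  /-- one equation with affinely independent exponents -/
  | simplex (ι : Type) [Finite ι] (f : MvPolynomial ι k) :
      AffineIndependent F (fun (a : f.support) (i : ι) => ((a.1 i : ℕ) : F)) → System k F ι {f}
  /-- one equation with at most four monomials, if `F` has characteristic zero -/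
  | four (ι : Type) [Finite ι] (f : MvPolynomial ι k) :
      CharZero F → f.support.card ≤ 4 → System k F ι {f}
  /-- unions in disjoint variables -/
  | union (ι ι' : Type) (S : Set (MvPolynomial ι k)) (S' : Set (MvPolynomial ι' k)) :
      System k F ι S → System k F ι' S' →
      System k F (ι ⊕ ι') (rename Sum.inl '' S ∪ rename Sum.inr '' S')
  /-- substitution of monomials with independent exponents -/
  | mono (J ι : Type) [Finite ι] (a : J → ι →₀ ℕ) (S : Set (MvPolynomial J k)) :
      LinearIndependent F (fun j i => ((a j i : ℕ) : F)) → System k F J S →
      System k F ι ((aeval fun j => monomial (a j) (1 : k)) '' S)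
  /-- substitution of homogeneous polynomials in disjoint variables -/
  | comp (J : Type) (ι : J → Type) (g : ∀ j, MvPolynomial (ι j) k) (w : ∀ j, ι j → ℤ) (d : J → ℤ)
      (S : Set (MvPolynomial J k)) :
      (∀ j, IsWeightedHomogeneous (w j) (g j) (d j)) → (∀ j, (d j : F) ≠ 0) →
      (∀ j, System k F (ι j) {g j}) → (∀ j, System k F (ι j) {g j - 1}) → System k F J S →
      System k F (Σ j, ι j) ((aeval fun j => rename (Sigma.mk j) (g j)) '' S)

/-- Classes of schemes which contain the products of affine curves over `k` and which are closed
under isomorphisms, gluing of a closed subscheme and its open complement, and the adjunction of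
`d`-th roots of units, for the numbers `d` which are nonzero in the field `F`. -/
structure KummerClosed (k F : Type) [Field k] [Field F] (P : Scheme.{0} → Prop) : Prop where
  /-- products of affine curves over `k` -/
  curves : ∀ (R : Type) [CommRing R] [Algebra k R], CurveProduct k R →
    P (Spec (CommRingCat.of R))
  /-- invariance under isomorphism -/
  iso : ∀ X Y : Scheme.{0}, (X ≅ Y) → P X → P Y
  /-- gluing of a closed subscheme `Z` of `X` and its open complement `U` -/
  glue : ∀ (Z X U : Scheme.{0}) (i : Z ⟶ X) (j : U ⟶ X), Arithmetic X → ClosedOpen i j →
    P Z → P U → P X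
  /-- adjunction of a `d`-th root of a unit -/
  kummer : ∀ (A : Type) [CommRing A] [Algebra k A] (a : A) (d : ℕ),
    Arithmetic (Spec (CommRingCat.of A)) → IsUnit a → (d : F) ≠ 0 →
    (∀ (R : Type) [CommRing R] [Algebra k R], CurveProduct k R →
      P (Spec (CommRingCat.of (R ⊗[k] AdjoinRoot (Polynomial.X ^ d - Polynomial.C a))))) →
    P (Spec (CommRingCat.of A))

end Pool.Agent.Helper9.FT
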