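import Pool.Agent.Helper65.Mor.MorinDefs

/-!
# Classes of schemes closed under gluing and transfer
-/

namespace Pool.Agent.Helper9.FT

open AlgebraicGeometry CategoryTheory
open Pool.Agent.Helper65.Mor (Arithmetic ClosedOpen CurveProduct)

/-- The closure properties of a class of schemes: products of affine curves over `k`,
isomorphisms, gluing of a closed subscheme and its open complement, and descent from the spectrum
of a finite free algebra of positive rank to the spectrum of the base ring. -/
structure TransferClosed (k : Type) [Field k] (P : Scheme.{0} → Prop) : Prop where
  /-- products of affine curves over `k` -/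
  curves : ∀ (R : Type) [CommRing R] [Algebra k R], CurveProduct k R →
    P (Spec (CommRingCat.of R))
  /-- invariance under isomorphism -/
  iso : ∀ X Y : Scheme.{0}, (X ≅ Y) → P X → P Y
  /-- gluing of a closed subscheme `Z` of `X` and its open complement `U` -/
  glue : ∀ (Z X U : Scheme.{0}) (i : Z ⟶ X) (j : U ⟶ X), Arithmetic X → ClosedOpen i j →
    P Z → P U → P X
  /-- transfer -/
  transfer : ∀ (A B : Type) [CommRing A] [CommRing B] [Nontrivial B] [Algebra A B]
    [Module.Free A B] [Module.Finite A B], Arithmetic (Spec (CommRingCat.of A)) →
    P (Spec (CommRingCat.of B)) → P (Spec (CommRingCat.of A))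

end Pool.Agent.Helper9.FT
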