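import Pool.Agent.Helper9.FT.Flat
import Pool.Agent.Helper9.FT.TransferDefs
import Pool.Agent.Helper9.FT.SysDefs
import Pool.Agent.Helper62.RO.Class

/-!
# Classes closed under transfer give Kummer classes
-/

namespace Pool.Agent.Helper9.FT

open AlgebraicGeometry CategoryTheory TensorProduct Polynomial
open Pool.Agent.Helper65.Mor (FGen CurveProduct Arithmetic ClosedOpen closedOpen_span
  arithmetic_of_fgen comap_adjoinRoot_surjective)
open Pool.Agent.Helper62.TS
open Pool.Agent.Helper62.RO (KClass Cls)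

/-- A property of rings closed under isomorphisms, gluing and Kummer covers of admissible degrees,
and which contains all products of curves over the field `k`. -/
structure RCl (k : Type) [Field k] (Adm : ℕ → Prop) (Q : ∀ (A : Type) [CommRing A], Prop) :
    Prop where
  adm_ne : ∀ d, Adm d → d ≠ 0
  adm_one : Adm 1
  adm_mul : ∀ d e, Adm d → Adm e → Adm (d * e)
  iso : ∀ (A B : Type) [CommRing A] [CommRing B], (A ≃+* B) → Q A → Q B
  glue : ∀ (A : Type) [CommRing A] [Algebra k A] (a : A), Algebra.FiniteType k A →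
    Q (A ⧸ Ideal.span {a}) → Q (Localization.Away a) → Q A
  kummer : ∀ (A : Type) [CommRing A] [Algebra k A] (a : A) (d : ℕ), Algebra.FiniteType k A →
    IsUnit a → Adm d →
    (∀ (E : Type) [CommRing E] [Algebra k E], CurveProduct k E → Q (E ⊗[k] Kum A a d)) → Q A
  curves : ∀ (A : Type) [CommRing A] [Algebra k A], CurveProduct k A → Q A

section

variable {k : Type} [Field k] {Adm : ℕ → Prop} {Q : ∀ (A : Type) [CommRing A], Prop}

theorem nn_iso (hQ : RCl k Adm Q) {W V : Type} [CommRing W] [Algebra k W] [CommRing V]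
    [Algebra k V] (e : W ≃ₐ[k] V) (h : NN k Q W) : NN k Q V := by
  obtain ⟨h1, h2⟩ := h
  refine ⟨Algebra.FiniteType.equiv h1 e, ?_⟩
  intro C _ _ hC
  exact hQ.iso _ _ (Algebra.TensorProduct.congr (AlgEquiv.refl : C ≃ₐ[k] C) e).toRingEquiv (h2 C hC)

theorem nn_glue (hQ : RCl k Adm Q) {W : Type} [CommRing W] [Algebra k W] (w : W)
    (hW : Algebra.FiniteType k W) (h1 : NN k Q (W ⧸ Ideal.span {w}))
    (h2 : NN k Q (Localization.Away w)) : NN k Q W := by
  refine ⟨hW, ?_⟩
  intro C _ _ hC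
  apply hQ.glue (C ⊗[k] W) ((1 : C) ⊗ₜ w) (ft_tensor (curveProduct_ft hC) hW)
  · exact hQ.iso _ _ (quotIso (k := k) C W w).symm.toRingEquiv (h1.2 C hC)
  · exact hQ.iso _ _ (awayIso (k := k) C W w).symm.toRingEquiv (h2.2 C hC)

theorem nn_kummer (hQ : RCl k Adm Q) {W : Type} [CommRing W] [Algebra k W] (w : W) (d : ℕ)
    (hW : Algebra.FiniteType k W) (hw : IsUnit w) (hd : Adm d)
    (h : NN k Q (Kum W w d)) : NN k Q W := by
  refine ⟨hW, ?_⟩
  intro C _ _ hC
  apply hQ.kummer (C ⊗[k] W) ((1 : C) ⊗ₜ w) d (ft_tensor (curveProduct_ft hC) hW)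
    (hw.map (Algebra.TensorProduct.includeRight : W →ₐ[k] C ⊗[k] W)) hd
  intro E _ _ hE
  refine hQ.iso _ _ ?_ (h.2 (E ⊗[k] C) (curveProduct_tensor hE hC))
  exact ((Algebra.TensorProduct.assoc k k k E C (Kum W w d)).trans
    (Algebra.TensorProduct.congr AlgEquiv.refl (kumIso (k := k) C W w d).symm)).toRingEquiv

theorem nn_curve (hQ : RCl k Adm Q) {W : Type} [CommRing W] [Algebra k W] (h : NN k Q W)
    (E : Type) [CommRing E] [Algebra k E] (hE : Algebra.FiniteType k E)
    (hE1 : ringKrullDim E ≤ 1) : NN k Q (W ⊗[k] E) := by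
  refine ⟨ft_tensor h.1 hE, ?_⟩
  intro C _ _ hC
  have e : ((C ⊗[k] E) ⊗[k] W) ≃ₐ[k] (C ⊗[k] (W ⊗[k] E)) :=
    (Algebra.TensorProduct.assoc k k k C E W).trans
      (Algebra.TensorProduct.congr AlgEquiv.refl (Algebra.TensorProduct.comm k E W))
  exact hQ.iso _ _ e.toRingEquiv (h.2 (C ⊗[k] E) (.tensor C E hC hE hE1))

theorem nn_base (hQ : RCl k Adm Q) : NN k Q k := by
  refine ⟨inferInstance, ?_⟩
  intro C _ _ hC
  exact hQ.iso _ _ (Algebra.TensorProduct.rid k k C).symm.toRingEquiv (hQ.curves C hC)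

/-- the multipliers form a Kummer class -/
theorem mm_kclass (hQ : RCl k Adm Q) : KClass k Adm (fun A _ _ => MM k Q A) where
  adm_ne := hQ.adm_ne
  adm_one := hQ.adm_one
  adm_mul := hQ.adm_mul
  ft A _ _ h := h.1
  iso A B _ _ _ _ e h := ⟨Algebra.FiniteType.equiv h.1 e, fun W _ _ hW =>
    nn_iso hQ (Algebra.TensorProduct.congr AlgEquiv.refl e) (h.2 W hW)⟩
  glue A _ _ a hA h1 h2 := ⟨hA, fun W _ _ hW =>
    nn_glue hQ ((1 : W) ⊗ₜ a) (ft_tensor hW.1 hA) (nn_iso hQ (quotIso W A a).symm (h1.2 W hW))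
      (nn_iso hQ (awayIso W A a).symm (h2.2 W hW))⟩
  kummer A _ _ a d hA ha hd h := ⟨hA, fun W _ _ hW =>
    nn_kummer hQ ((1 : W) ⊗ₜ a) d (ft_tensor hW.1 hA)
      (ha.map (Algebra.TensorProduct.includeRight : A →ₐ[k] W ⊗[k] A)) hd
      (nn_iso hQ (kumIso W A a d).symm (h.2 W hW))⟩
  tensor A B _ _ _ _ hA hB := ⟨ft_tensor hA.1 hB.1, fun W _ _ hW =>
    nn_iso hQ (Algebra.TensorProduct.assoc k k k W A B) (hB.2 _ (hA.2 W hW))⟩
  curve C _ _ hC hC1 := ⟨hC, fun W _ _ hW => nn_curve hQ hW C hC hC1⟩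

/-- products of a multiplier with products of curves -/
theorem mm_prod (hQ : RCl k Adm Q) {A : Type} [CommRing A] [Algebra k A] (h : MM k Q A)
    {C : Type} [CommRing C] [Algebra k C] (hC : CurveProduct k C) : Q (C ⊗[k] A) := by
  have h1 := (h.2 k (nn_base hQ)).2 C hC
  exact hQ.iso _ _ (Algebra.TensorProduct.congr (AlgEquiv.refl : C ≃ₐ[k] C)
    (Algebra.TensorProduct.lid k A)).toRingEquiv h1

theorem mm_mem (hQ : RCl k Adm Q) {A : Type} [CommRing A] [Algebra k A] (h : MM k Q A) : Q A :=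
  hQ.iso _ _ (Algebra.TensorProduct.lid k A).toRingEquiv (mm_prod hQ h .base)

end

/-- `FlatQ` with all positive degrees -/
theorem flat_rcl (k : Type) [Field k] [Finite k] : RCl k (fun d => d ≠ 0) FlatQ where
  adm_ne d h := h
  adm_one := one_ne_zero
  adm_mul d e hd he := mul_ne_zero hd he
  iso A B _ _ e h := flatQ_iso A B e h
  glue A _ _ a hA h1 h2 := flatQ_glue A a (fgen_of_ft hA) h1 h2
  kummer A _ _ a d hA _ hd h :=
    flatQ_kummer k A a d (fgen_of_ft hA) hd
      (flatQ_iso _ _ (Algebra.TensorProduct.lid k (Kum A a d)).toRingEquiv (h k .base))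
  curves A _ _ h := flatQ_curves k A h

/-- `MorQ` with the degrees invertible in `k` -/
theorem morin_rcl (k : Type) [Field k] [Finite k] : RCl k (fun d => (d : k) ≠ 0) MorQ where
  adm_ne d h := by rintro rfl; exact h (by simp)
  adm_one := by simp
  adm_mul d e hd he := by
    rw [Nat.cast_mul]
    exact mul_ne_zero hd he
  iso := (rclass k).iso
  glue := (rclass k).glue
  kummer := (rclass k).kummer
  curves := (rclass k).curves

/-- finitely generated rings whose spectrum has the property -/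
def PQ (P : Scheme.{0} → Prop) (A : Type) [CommRing A] : Prop :=
  FGen A ∧ P (Spec (CommRingCat.of A))

theorem pq_iso {k : Type} [Field k] {P : Scheme.{0} → Prop} (hP : TransferClosed k P)
    (A B : Type) [CommRing A] [CommRing B] (e : A ≃+* B) (h : PQ P A) : PQ P B :=
  ⟨h.1.of_surjective (e : A →+* B) e.surjective,
    hP.iso _ _ (Scheme.Spec.mapIso e.toCommRingCatIso.symm.op) h.2⟩

/-- a class closed under the adjunction of roots -/
theorem kummer_rcl (k F : Type) [Field k] [Finite k] [Field F] {P : Scheme.{0} → Prop}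
    (hP : KummerClosed k F P) : RCl k (fun d => (d : F) ≠ 0) (PQ P) where
  adm_ne d h := by rintro rfl; exact h (by simp)
  adm_one := by simp
  adm_mul d e hd he := by
    rw [Nat.cast_mul]
    exact mul_ne_zero hd he
  iso A B _ _ e h := ⟨h.1.of_surjective (e : A →+* B) e.surjective,
    hP.iso _ _ (Scheme.Spec.mapIso e.toCommRingCatIso.symm.op) h.2⟩
  glue A _ _ a hA h1 h2 := ⟨fgen_of_ft hA,
    hP.glue _ _ _ _ _ (arithmetic_of_fgen (fgen_of_ft hA)) (closedOpen_span a) h1.2 h2.2⟩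
  kummer A _ _ a d hA ha hd h := ⟨fgen_of_ft hA,
    hP.kummer A a d (arithmetic_of_fgen (fgen_of_ft hA)) ha hd (fun R _ _ hR => (h R hR).2)⟩
  curves A _ _ h := ⟨fgen_of_ft (curveProduct_ft h), hP.curves A h⟩

/-- a class closed under transfer -/
theorem transfer_rcl (k : Type) [Field k] [Finite k] {P : Scheme.{0} → Prop}
    (hP : TransferClosed k P) : RCl k (fun d => d ≠ 0) (PQ P) where
  adm_ne d h := h
  adm_one := one_ne_zero
  adm_mul d e hd he := mul_ne_zero hd he
  iso A B _ _ e h := pq_iso hP A B e h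
  glue A _ _ a hA h1 h2 := ⟨fgen_of_ft hA,
    hP.glue _ _ _ _ _ (arithmetic_of_fgen (fgen_of_ft hA)) (closedOpen_span a) h1.2 h2.2⟩
  kummer A _ _ a d hA _ hd h := by
    have h1 := pq_iso hP _ _ (Algebra.TensorProduct.lid k (Kum A a d)).toRingEquiv (h k .base)
    refine ⟨fgen_of_ft hA, ?_⟩
    rcases subsingleton_or_nontrivial A with hs | hs
    · apply hP.curves
      have h1 : CurveProduct k (k ⊗[k] A) := by
        refine .tensor k A .base ?_ ?_
        · exact Algebra.FiniteType.of_surjective (Algebra.ofId k A)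
            (fun x => ⟨0, Subsingleton.elim _ _⟩)
        · rw [ringKrullDim_eq_bot_of_subsingleton]
          exact bot_le
      exact .iso _ _ h1 (Algebra.TensorProduct.lid k A)
    · have hm := monic_X_pow_sub_C a hd
      have h2 : Module.Finite A (Kum A a d) := hm.finite_adjoinRoot
      have h3 : Module.Free A (Kum A a d) := hm.free_adjoinRoot
      have h4 : Nontrivial (Kum A a d) := by
        let b := (AdjoinRoot.powerBasis' hm).basis
        have hi : 0 < (AdjoinRoot.powerBasis' hm).dim := by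
          rw [AdjoinRoot.powerBasis'_dim, natDegree_X_pow_sub_C]; omega
        exact ⟨⟨b ⟨0, hi⟩, 0, b.ne_zero _⟩⟩
      exact hP.transfer A (Kum A a d) (arithmetic_of_fgen (fgen_of_ft hA)) h1.2
  curves A _ _ h := ⟨fgen_of_ft (curveProduct_ft h), hP.curves A h⟩

end Pool.Agent.Helper9.FT
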