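import Pool.Agent.Helper62.RO.Strata

/-!
# Disjoint unions of universally good systems
-/

namespace Pool.Agent.Helper9.FT

open TensorProduct
open Pool.Agent.Helper62.TS
open Pool.Agent.Helper62.RO

variable {k : Type} [Field k] {Adm : ℕ → Prop} {M : Cls k}

/-- the left part of a torus -/
def torInl (ι ι' : Type) : TorHom ι (ι ⊕ ι') where
  φ W _ u := Sum.elim u 1
  nat W V _ _ f u := by
    funext l
    cases l
    · rfl
    · simp
  inv W _ u := by
    funext l
    cases l
    · rfl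
    · simp

/-- the right part of a torus -/
def torInr (ι ι' : Type) : TorHom ι' (ι ⊕ ι') where
  φ W _ u := Sum.elim 1 u
  nat W V _ _ f u := by
    funext l
    cases l
    · simp
    · rfl
  inv W _ u := by
    funext l
    cases l
    · simp
    · rfl

theorem ug_union {ι ι' : Type} [Finite ι] [Finite ι'] {S : Set (MvPolynomial ι k)}
    {S' : Set (MvPolynomial ι' k)} (hS : UG Adm M S) (hS' : UG Adm M S') :
    UG Adm M (MvPolynomial.rename Sum.inl '' S ∪ MvPolynomial.rename Sum.inr '' S' :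
      Set (MvPolynomial (ι ⊕ ι') k)) := by
  intro E p z m hE hm ⟨a⟩ hε
  -- one special fibre for the right coordinates
  have h1 : ∀ ε' : ι' → Bool, Good M E (fun W _ _ x =>
      (p W x ∧ ∀ l, (z (Sum.inr l)).val W x = bt W (ε' l)) ∧
        VS S W (fun l => (z (Sum.inl l)).val W x)) := by
    intro ε'
    set p1 : Pr E := fun W _ _ x => p W x ∧ ∀ l, (z (Sum.inr l)).val W x = bt W (ε' l) with hp1
    have hE1 : Good (Ft k) E p1 :=
      hE.ft_eqs (fun l => z (Sum.inr l)) (fun l => Crd.bt E (ε' l))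
    refine hS E p1 (fun l => z (Sum.inl l)) (fun l => m (Sum.inl l)) hE1 (fun l => hm _) ?_ ?_
    · refine ⟨a.gen (torInl ι ι') p1 _ _ (fun W _ _ x h => h.1) ?_ ?_⟩
      · rintro W _ _ u x ⟨h1, h2⟩
        refine ⟨a.pres W _ x h1, fun l => ?_⟩
        rw [a.eq W _ x h1, h2]
        change (((1 : Wˣ) ^ m (Sum.inr l) : Wˣ) : W) * _ = _
        rw [one_pow, Units.val_one, one_mul]
      · rintro W _ _ u x ⟨h1, h2⟩ l
        rw [a.eq W _ x h1]
        rfl
    · intro ε
      refine (hε (Sum.elim ε ε')).congr (fun W _ _ x => ?_)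
      constructor
      · rintro ⟨h1, h2⟩
        exact ⟨⟨h1, fun l => h2 (Sum.inr l)⟩, fun l => h2 (Sum.inl l)⟩
      · rintro ⟨⟨h1, h2⟩, h3⟩
        refine ⟨h1, fun l => ?_⟩
        cases l with
        | inl l => exact h3 l
        | inr l => exact h2 l
  set p2 : Pr E := fun W _ _ x => p W x ∧ VS S W (fun l => (z (Sum.inl l)).val W x) with hp2
  have hE2 : Good (Ft k) E p2 := good_ft_vs hE (fun l => z (Sum.inl l)) S
  have h2 := hS' E p2 (fun l => z (Sum.inr l)) (fun l => m (Sum.inr l)) hE2 (fun l => hm _) (by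
    refine ⟨a.gen (torInr ι ι') p2 _ _ (fun W _ _ x h => h.1) ?_ ?_⟩
    · rintro W _ _ u x ⟨h1, h2⟩
      refine ⟨a.pres W _ x h1, ?_⟩
      have h3 : (fun l => (z (Sum.inl l)).val W (a.act W ((torInr ι ι').φ W u) x)) =
          fun l => (z (Sum.inl l)).val W x := by
        funext l
        rw [a.eq W _ x h1]
        change (((1 : Wˣ) ^ m (Sum.inl l) : Wˣ) : W) * _ = _
        rw [one_pow, Units.val_one, one_mul]
      change VS S W (fun l => (z (Sum.inl l)).val W (a.act W ((torInr ι ι').φ W u) x))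
      rw [h3]
      exact h2
    · rintro W _ _ u x ⟨h1, h2⟩ l
      rw [a.eq W _ x h1]
      rfl) (fun ε' => (h1 ε').congr (fun W _ _ x => by
        constructor
        · rintro ⟨⟨h1, h2⟩, h3⟩
          exact ⟨⟨h1, h3⟩, h2⟩
        · rintro ⟨⟨h1, h3⟩, h2⟩
          exact ⟨⟨h1, h2⟩, h3⟩))
  refine h2.congr (fun W _ _ x => ?_)
  constructor
  · rintro ⟨⟨h3, h4⟩, h5⟩
    refine ⟨h3, ?_⟩
    rintro f (⟨g, hg, rfl⟩ | ⟨g, hg, rfl⟩)
    · rw [MvPolynomial.aeval_rename]
      exact h4 g hg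
    · rw [MvPolynomial.aeval_rename]
      exact h5 g hg
  · rintro ⟨h3, h4⟩
    refine ⟨⟨h3, fun g hg => ?_⟩, fun g hg => ?_⟩
    · have := h4 _ (Or.inl ⟨g, hg, rfl⟩)
      rw [MvPolynomial.aeval_rename] at this
      exact this
    · have := h4 _ (Or.inr ⟨g, hg, rfl⟩)
      rw [MvPolynomial.aeval_rename] at this
      exact this

end Pool.Agent.Helper9.FT
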