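import Pool.Agent.Helper9.FT.PlanarUG
import Pool.Agent.Helper9.FT.KCl
import Pool.Agent.Helper9.FT.Union
import Pool.Agent.Helper62.RO.Few
import Pool.Agent.Helper62.TS.Weights

/-!
# Systems are universally good
-/

namespace Pool.Agent.Helper9.FT

open TensorProduct AlgebraicGeometry
open Pool.Agent.Helper62.TS
open Pool.Agent.Helper62.RO
open Pool.Agent.Helper65.Mor (CurveProduct MorinClass)

variable {k : Type} [Field k]

/-- the torus condition for coplanar exponents -/
theorem planar_torus {ι : Type} [Finite ι] (f : MvPolynomial ι k)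
    (hf : Module.finrank ℚ (vectorSpan ℚ
      (Set.range fun d : f.support => fun i => ((d.1 i : ℕ) : ℚ))) ≤ 2) (s : Finset ι) :
    ringKrullDim (Stratum {f} s) + Module.finrank ℚ (Differences {f} s) ≤ s.card + 1 := by
  classical
  have := Fintype.ofFinite ι
  set σ : ι → Bool := fun i => decide (i ∈ s) with hσ
  have hs : ∀ i, i ∈ s ↔ σ i = true := by
    intro i
    simp [hσ]
  have hcard : Fintype.card {i // σ i = true} = s.card := by
    rw [Fintype.card_subtype]
    congr 1
    ext i
    simp [hσ]
  have hd : ringKrullDim (Stratum {f} s) ≤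
      ringKrullDim (MvPolynomial {i // σ i = true} k ⧸ Ideal.span {resPoly σ f}) := by
    obtain ⟨A, _, _, a, ha, hA⟩ := good_res σ f
    obtain ⟨b, hb⟩ := rep_stratum {f} σ s hs
    obtain ⟨e⟩ := ha.equiv hb
    rw [← ringKrullDim_eq_of_ringEquiv e.toRingEquiv]
    exact hA.2
  have h1 : ringKrullDim (MvPolynomial {i // σ i = true} k) = (s.card : WithBot ℕ∞) := by
    rw [MvPolynomial.ringKrullDim_of_isNoetherianRing, ringKrullDim_eq_zero_of_field, zero_add,
      Nat.card_eq_fintype_card, hcard]
  have h2 : Differences {f} s ≤ vectorSpan ℚ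
      (Set.range fun d : f.support => fun i => ((d.1 i : ℕ) : ℚ)) := by
    rw [Differences, Submodule.span_le]
    rintro _ ⟨g, hg, a, ha, b, hb, -, -, rfl⟩
    obtain rfl : g = f := hg
    exact vsub_mem_vectorSpan ℚ ⟨⟨a, ha⟩, rfl⟩ ⟨⟨b, hb⟩, rfl⟩
  have h3 := (Submodule.finrank_mono h2).trans hf
  by_cases h4 : ∃ a ∈ f.support, a.support ⊆ s
  · obtain ⟨a, ha, has⟩ := h4
    have haσ : ∀ i, σ i = false → a i = 0 := by
      intro i hi
      by_contra h5
      have h6 := (hs i).1 (has (Finsupp.mem_support_iff.2 h5))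
      rw [hi] at h6
      exact Bool.false_ne_true h6
    have h5 := ringKrullDim_quotient_succ_le_of_nonZeroDivisor
      (mem_nonZeroDivisors_of_ne_zero (resPoly_ne_zero ha haσ))
    rw [h1] at h5
    have h6 : (Module.finrank ℚ (Differences {f} s) : WithBot ℕ∞) ≤ 1 + 1 := by
      have : (Module.finrank ℚ (Differences {f} s) : WithBot ℕ∞) ≤ ((2 : ℕ) : WithBot ℕ∞) := by
        exact_mod_cast h3
      refine this.trans (le_of_eq ?_)
      norm_num
    calc _ ≤ ringKrullDim (MvPolynomial {i // σ i = true} k ⧸ Ideal.span {resPoly σ f}) +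
          (1 + 1) := add_le_add hd h6
      _ = (ringKrullDim (MvPolynomial {i // σ i = true} k ⧸ Ideal.span {resPoly σ f}) + 1) +
          1 := (add_assoc _ _ _).symm
      _ ≤ (s.card : WithBot ℕ∞) + 1 := add_le_add h5 le_rfl
  · have h5 : Differences {f} s = ⊥ := by
      rw [Differences, Submodule.span_eq_bot]
      rintro _ ⟨g, hg, a, ha, b, hb, h6, h7, rfl⟩
      obtain rfl : g = f := hg
      exact absurd ⟨a, ha, h6⟩ h4
    rw [h5, finrank_bot, Nat.cast_zero, add_zero]
    refine (hd.trans (ringKrullDim_quotient_le _)).trans ?_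
    rw [h1]
    exact_mod_cast Nat.le_succ _

/-- polynomials with at most four monomials -/
theorem ug_four {Adm : ℕ → Prop} {M : Cls k} (hM : KClass k Adm M) (hadm : ∀ d, Adm d ↔ d ≠ 0)
    {ι : Type} [Finite ι] (f : MvPolynomial ι k) (hf : f.support.card ≤ 4) :
    UG Adm M {f} := by
  have := Fintype.ofFinite ι
  have h1 : Fintype.card f.support ≤ 4 := by simpa using hf
  rcases four_points h1 (fun (d : f.support) (i : ι) => ((d.1 i : ℕ) : ℚ)) with h | h
  · exact ug_simplex hM ℚ (fun d => by simp [hadm]) f (affIndep_of h)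
  · exact ug_planar hM f h

theorem fe_natAbs {ι : Type} {g : MvPolynomial ι k} {w : ι → ℤ} {d : ℤ}
    (h : MvPolynomial.IsWeightedHomogeneous w g d) :
    ∃ w, Helper62.RO.FE g w d.natAbs := by
  have h1 := Pool.Agent.Helper62.TS.FE.of_homogeneous h
  rcases Int.natAbs_eq d with h2 | h2
  · refine ⟨w, ?_⟩
    intro W _ _ u x
    have h3 := h1 W u x
    rw [h3, ← zpow_natCast, ← h2]
  · refine ⟨fun i => - w i, ?_⟩
    intro W _ _ u x
    have h3 := h1 W u⁻¹ x
    have h4 : ∀ i, u⁻¹ ^ w i = u ^ (- w i) := fun i => by rw [inv_zpow, zpow_neg]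
    simp only [h4] at h3
    rw [h3, inv_zpow, ← zpow_neg, ← zpow_natCast]
    congr 3
    omega

theorem system_ug {Adm : ℕ → Prop} {M : Cls k} (hM : KClass k Adm M) (F : Type) [Field F]
    (hadm : ∀ d : ℕ, Adm d ↔ (d : F) ≠ 0) {ι : Type} {S : Set (MvPolynomial ι k)}
    (h : System k F ι S) : Finite ι ∧ UG Adm M S := by
  classical
  induction h with
  | torus ι S h => exact ⟨inferInstance, ug_torus_ring hM h⟩
  | simplex ι f h =>
    have := Fintype.ofFinite ι
    exact ⟨inferInstance, ug_simplex hM F hadm f (affIndep_of h)⟩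
  | four ι f h0 h =>
    exact ⟨inferInstance, ug_four hM (fun d => by simp [hadm]) f h⟩
  | union ι ι' S S' _ _ ih ih' =>
    have := ih.1
    have := ih'.1
    exact ⟨inferInstance, ug_union ih.2 ih'.2⟩
  | mono J ι a S ha _ ih =>
    have := ih.1
    have := Fintype.ofFinite ι
    have := Fintype.ofFinite J
    refine ⟨inferInstance, ?_⟩
    have h1 := ug_mono_indep hM F (fun d hd => (hadm d).2 hd) (fun j i => a j i) ha ih.2
    have h2 : (fun j => ∏ v, (MvPolynomial.X v : MvPolynomial ι k) ^ (a j v)) =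
        fun j => MvPolynomial.monomial (a j) (1 : k) := by
      funext j
      rw [MvPolynomial.monomial_eq, MvPolynomial.C_1, one_mul,
        Finsupp.prod_fintype _ _ (fun _ => pow_zero _)]
    rw [h2] at h1
    exact h1
  | comp J ι g w d S hw hd _ _ _ ih0 ih1 ihS =>
    have := ihS.1
    have := fun j => (ih0 j).1
    refine ⟨inferInstance, ?_⟩
    refine ug_comp hM (d := fun j => (d j).natAbs) (fun j => ⟨?_, ?_, (ih0 j).2, (ih1 j).2⟩) ihS.2
    · rw [hadm]
      intro h1
      apply hd j
      rcases Int.natAbs_eq (d j) with h2 | h2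
      · rw [h2, Int.cast_natCast]
        exact h1
      · rw [h2, Int.cast_neg, Int.cast_natCast, h1, neg_zero]
    · exact fe_natAbs (hw j)

/-- the class contains universally good systems -/
theorem ug_mem {Adm : ℕ → Prop} {M : Cls k} (hM : KClass k Adm M) {ι : Type} [Finite ι]
    {S : Set (MvPolynomial ι k)} (h : UG Adm M S) : M (MvPolynomial ι k ⧸ Ideal.span S) := by
  have h1 := h (Aff ι) (fun _ _ _ _ => True) crd (fun _ => 1) (good_ft_aff ι)
    (fun _ => hM.adm_one) ⟨{
      act := fun W _ _ u x => fun i => (u i : W) * x i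
      nat := by
        intro W V _ _ _ _ f u x _
        funext i
        change f ((u i : W) * x i) = f (u i : W) * f (x i)
        rw [map_mul]
      pres := fun _ _ _ _ _ _ => trivial
      inv := by
        intro W _ _ u x _
        funext i
        change ((u⁻¹ : ι → Wˣ) i : W) * ((u i : W) * x i) = x i
        rw [Pi.inv_apply, Units.inv_mul_cancel_left]
      eq := by
        intro W _ _ u x _ l
        rw [pow_one]
        rfl }⟩ (fun ε => by
      have h2 : Rep (Aff (k := k) ι) (fun W _ _ x => True ∧ ∀ l, (crd l).val W x = bt W (ε l)) k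
          (fun i => bt k (ε i)) := by
        refine ⟨?_, ?_, ?_⟩
        · intro W _ _ f
          exact ⟨trivial, fun l => map_bt f (ε l)⟩
        · rintro W _ _ x ⟨-, hx⟩
          refine ⟨Algebra.ofId k W, ?_⟩
          funext i
          exact (map_bt (Algebra.ofId k W) (ε i)).trans (hx i).symm
        · intro W _ _ f g _
          exact Subsingleton.elim _ _
      refine ⟨k, _, _, _, h2, hM.curve k inferInstance ?_⟩
      rw [ringKrullDim_eq_zero_of_field]
      exact zero_le_one)
  have h2 : Good M (Aff ι) (VS S) := h1.congr (fun W _ _ x => by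
    constructor
    · rintro ⟨-, h⟩
      exact h
    · intro h
      exact ⟨trivial, h⟩)
  exact h2.mem hM (rep_quot S)

/-- the main theorem -/
theorem kummer_main [Finite k] {F : Type} [Field F] {P : Scheme.{0} → Prop}
    (hP : KummerClosed k F P) {ι : Type} {S : Set (MvPolynomial ι k)} (h : System k F ι S)
    (C : Type) [CommRing C] [Algebra k C] (hC : CurveProduct k C) :
    P (Spec (CommRingCat.of (C ⊗[k] (MvPolynomial ι k ⧸ Ideal.span S)))) := by
  have hQ := kummer_rcl k F hP
  have h1 := system_ug (mm_kclass hQ) F (fun d => Iff.rfl) h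
  have := h1.1
  exact (mm_prod hQ (ug_mem (mm_kclass hQ) h1.2) hC).2

end Pool.Agent.Helper9.FT
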