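import Mathlib

/-!
# Integer cocharacters dual to independent integer vectors
-/

namespace Pool.Agent.Helper9.FT

open Matrix

theorem exists_dual {F : Type*} [Field F] {σ ι : Type*} [Fintype σ] [Fintype ι] [DecidableEq ι]
    (b : ι → σ → ℤ) (h : LinearIndependent F (fun i s => (b i s : F))) :
    ∃ (e : ℤ) (L : ι → σ → ℤ), (e : F) ≠ 0 ∧
      ∀ i j, ∑ s, L i s * b j s = if i = j then e else 0 := by
  classical
  let M : Matrix ι σ F := Matrix.of fun i s => (b i s : F)
  have hM : LinearIndependent F M.row := h
  have h1 : M.rank = Fintype.card ι := hM.rank_matrix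
  have h2 : Module.finrank F (Submodule.span F (Set.range M.col)) = Fintype.card ι := by
    rw [← Matrix.range_mulVecLin, ← Matrix.rank, h1]
  obtain ⟨f, hf1, -, hf3⟩ := Submodule.exists_fun_fin_finrank_span_eq F (Set.range M.col)
  choose c hc using hf1
  let eq : ι ≃ Fin (Module.finrank F (Submodule.span F (Set.range M.col))) :=
    (Fintype.equivFinOfCardEq h2.symm)
  let N : Matrix ι ι ℤ := Matrix.of fun i j => b i (c (eq j))
  have h3 : LinearIndependent F (N.map (Int.castRingHom F)).col := by
    have h4 : (N.map (Int.castRingHom F)).col = f ∘ eq := by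
      funext j
      change _ = f (eq j)
      rw [← hc (eq j)]
      rfl
    rw [h4]
    exact hf3.comp _ eq.injective
  have h5 : IsUnit (N.map (Int.castRingHom F)) := by
    rw [← Matrix.linearIndependent_cols_iff_isUnit]
    exact h3
  have h6 : ((N.det : ℤ) : F) ≠ 0 := by
    have h7 := (Matrix.isUnit_iff_isUnit_det _).1 h5
    have h8 : (N.map (Int.castRingHom F)).det = ((N.det : ℤ) : F) := by
      have := (Int.castRingHom F).map_det N
      exact this.symm
    rw [h8] at h7
    exact h7.ne_zero
  refine ⟨N.det, fun i s => ∑ j, if c (eq j) = s then N.adjugate j i else 0, h6, ?_⟩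
  intro i j
  have h9 : ∑ s, (∑ l, if c (eq l) = s then N.adjugate l i else 0) * b j s =
      (N * N.adjugate) j i := by
    rw [Matrix.mul_apply]
    simp only [Finset.sum_mul]
    rw [Finset.sum_comm]
    refine Finset.sum_congr rfl fun l _ => ?_
    simp only [ite_mul, zero_mul, Finset.sum_ite_eq, Finset.mem_univ, if_true]
    rw [mul_comm]
    rfl
  rw [h9, Matrix.mul_adjugate]
  simp only [Matrix.smul_apply, Matrix.one_apply, smul_eq_mul, mul_ite, mul_one, mul_zero]
  by_cases hij : i = j
  · subst hij; simp
  · rw [if_neg hij, if_neg (fun h => hij h.symm)]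

/-- the same with a positive multiple -/
theorem exists_dual_nat {F : Type*} [Field F] {σ ι : Type*} [Fintype σ] [Fintype ι]
    [DecidableEq ι] (b : ι → σ → ℤ) (h : LinearIndependent F (fun i s => (b i s : F))) :
    ∃ (e : ℕ) (L : ι → σ → ℤ), (e : F) ≠ 0 ∧
      ∀ i j, ∑ s, L i s * b j s = if i = j then (e : ℤ) else 0 := by
  obtain ⟨e, L, he, hL⟩ := exists_dual b h
  rcases Int.natAbs_eq e with h1 | h1
  · refine ⟨e.natAbs, L, ?_, ?_⟩
    · rw [h1] at he
      simpa using he
    · rw [← h1]
      exact hL
  · refine ⟨e.natAbs, fun i s => - L i s, ?_, ?_⟩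
    · rw [h1] at he
      simpa using he
    · intro i j
      have h2 : ((e.natAbs : ℕ) : ℤ) = -e := by omega
      simp only [neg_mul, Finset.sum_neg_distrib, hL, h2]
      split_ifs <;> simp

/-- independence over the field with `p` elements gives independence over every field of
characteristic `p` and conversely -/
theorem exists_dual_charP (k : Type*) [Field k] (p : ℕ) [CharP k p] [Fact p.Prime] {σ ι : Type*}
    [Fintype σ] [Fintype ι] [DecidableEq ι] (b : ι → σ → ℤ)
    (h : LinearIndependent (ZMod p) (fun i s => (b i s : ZMod p))) :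
    ∃ (e : ℕ) (L : ι → σ → ℤ), (e : k) ≠ 0 ∧
      ∀ i j, ∑ s, L i s * b j s = if i = j then (e : ℤ) else 0 := by
  obtain ⟨e, L, he, hL⟩ := exists_dual_nat b h
  refine ⟨e, L, ?_, hL⟩
  intro h1
  apply he
  rw [CharP.cast_eq_zero_iff (ZMod p) p]
  exact (CharP.cast_eq_zero_iff k p e).1 h1

end Pool.Agent.Helper9.FT
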