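import Mathlib

/-!
# Monomial equations in units are diagonalizable
-/

namespace Pool.Agent.Helper9.FT

/-- the monomial with exponents `m` in the elements `u v` of a commutative group -/
def mon {V : Type*} [Fintype V] {G : Type*} [CommGroup G] (u : V → G) (m : V → ℤ) : G :=
  ∏ v, u v ^ m v

section

variable {V : Type*} [Fintype V] {G : Type*} [CommGroup G]

theorem mon_zero (u : V → G) : mon u 0 = 1 := by simp [mon]

theorem mon_add (u : V → G) (m n : V → ℤ) : mon u (m + n) = mon u m * mon u n := by
  simp [mon, zpow_add, Finset.prod_mul_distrib]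

theorem mon_smul (u : V → G) (c : ℤ) (m : V → ℤ) : mon u (c • m) = mon u m ^ c := by
  simp only [mon, Pi.smul_apply, smul_eq_mul, ← Finset.prod_zpow]
  refine Finset.prod_congr rfl fun v _ => ?_
  rw [mul_comm, zpow_mul]

theorem mon_neg (u : V → G) (m : V → ℤ) : mon u (-m) = (mon u m)⁻¹ := by
  simp [mon]

theorem mon_single [DecidableEq V] (u : V → G) (v : V) : mon u (Pi.single v 1) = u v := by
  rw [mon, Finset.prod_eq_single v]
  · simp
  · intro b _ hb
    simp [hb]
  · simp

/-- monomials in monomials -/
theorem mon_mon {I : Type*} [Fintype I] (u : V → G) (P : I → V → ℤ) (m : I → ℤ) :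
    mon (fun i => mon u (P i)) m = mon u (fun v => ∑ i, m i * P i v) := by
  simp only [mon, ← Finset.prod_zpow]
  rw [Finset.prod_comm]
  refine Finset.prod_congr rfl fun v _ => ?_
  simp only [← zpow_mul]
  have h1 : ∀ (s : Finset I) (e : I → ℤ), ∏ i ∈ s, u v ^ e i = u v ^ ∑ i ∈ s, e i := by
    classical
    intro s e
    induction s using Finset.induction_on with
    | empty => simp
    | insert i s hi ih => rw [Finset.prod_insert hi, Finset.sum_insert hi, ih, zpow_add]
  rw [h1]
  congr 1
  exact Finset.sum_congr rfl fun i _ => mul_comm _ _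

/-- the exponents of the monomials equal to one -/
def monKer (u : V → G) : Submodule ℤ (V → ℤ) where
  carrier := {m | mon u m = 1}
  zero_mem' := mon_zero u
  add_mem' := by
    intro m n hm hn
    change mon u (m + n) = 1
    change mon u m = 1 at hm
    change mon u n = 1 at hn
    rw [mon_add, hm, hn, mul_one]
  smul_mem' := by
    intro c m hm
    change mon u (c • m) = 1
    change mon u m = 1 at hm
    rw [mon_smul, hm, one_zpow]

theorem mem_monKer {u : V → G} {m : V → ℤ} : m ∈ monKer u ↔ mon u m = 1 := Iff.rfl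

end

/-- Inverse matrices define inverse monomial maps. -/
theorem mon_inv {V I : Type*} [Fintype V] [Fintype I] [DecidableEq V] {G : Type*} [CommGroup G]
    (P : I → V → ℤ) (R : V → I → ℤ)
    (h : ∀ v w, ∑ i, R v i * P i w = if v = w then 1 else 0) (u : V → G) (v : V) :
    mon (fun i => mon u (P i)) (R v) = u v := by
  rw [mon_mon]
  have h1 : (fun w => ∑ i, R v i * P i w) = Pi.single v 1 := by
    funext w
    rw [h, Pi.single_apply]
    simp only [eq_comm]
  rw [h1, mon_single]

/-- A basis of a lattice and its inverse matrix. -/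
theorem basis_inv {V : Type*} [Fintype V] [DecidableEq V] (bM : Module.Basis V ℤ (V → ℤ)) :
    ∃ R : V → V → ℤ, (∀ v w, ∑ i, R v i * bM i w = if v = w then 1 else 0) ∧
      (∀ i j, ∑ v, bM i v * R v j = if i = j then 1 else 0) := by
  let P : Matrix V V ℤ := Matrix.of fun i => bM i
  let R : Matrix V V ℤ := Matrix.of fun v i => bM.repr (Pi.single v 1) i
  have hRP : R * P = 1 := by
    ext v w
    rw [Matrix.mul_apply]
    have h1 := congrFun (bM.sum_repr (Pi.single v 1)) w
    rw [Finset.sum_apply] at h1
    simp only [Pi.smul_apply, smul_eq_mul] at h1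
    rw [Matrix.one_apply]
    refine h1.trans ?_
    rw [Pi.single_apply]
    simp only [eq_comm]
  have hPR : P * R = 1 := mul_eq_one_comm.1 hRP
  refine ⟨fun v i => bM.repr (Pi.single v 1) i, ?_, ?_⟩
  · intro v w
    have h1 := congrFun (congrFun hRP v) w
    rw [Matrix.mul_apply, Matrix.one_apply] at h1
    exact h1
  · intro i j
    have h1 := congrFun (congrFun hPR i) j
    rw [Matrix.mul_apply, Matrix.one_apply] at h1
    exact h1

/-- A system of monomial equations in units is, in suitable monomial coordinates, given by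
`y i ^ q i = 1`. -/
theorem exists_diag {V l : Type*} [Fintype V] [DecidableEq V] (C : l → V → ℤ) :
    ∃ (q : V → ℕ) (P R : V → V → ℤ),
      (∀ v w, ∑ i, R v i * P i w = if v = w then 1 else 0) ∧
      (∀ i j, ∑ v, P i v * R v j = if i = j then 1 else 0) ∧
      ∀ (G : Type) [CommGroup G] (u : V → G),
        (∀ j, mon u (C j) = 1) ↔ ∀ i, mon u (P i) ^ q i = 1 := by
  classical
  let N : Submodule ℤ (V → ℤ) := Submodule.span ℤ (Set.range C)
  obtain ⟨n, bM, bN, f, a, snf⟩ := Submodule.smithNormalForm (Pi.basisFun ℤ V) N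
  obtain ⟨R, hRP, hPR⟩ := basis_inv bM
  let q : V → ℕ := fun i => if h : ∃ j, f j = i then (a h.choose).natAbs else 0
  have hq : ∀ j, q (f j) = (a j).natAbs := by
    intro j
    have h1 : ∃ j', f j' = f j := ⟨j, rfl⟩
    have h2 : h1.choose = j := f.injective h1.choose_spec
    simp only [q, dif_pos h1, h2]
  refine ⟨q, fun i => bM i, R, hRP, hPR, ?_⟩
  intro G _ u
  have hN : (∀ j, mon u (C j) = 1) ↔ N ≤ monKer u := by
    rw [Submodule.span_le, Set.range_subset_iff]
    rfl
  rw [hN]
  have hN2 : N ≤ monKer u ↔ ∀ j, (a j • bM (f j)) ∈ monKer u := by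
    constructor
    · intro h j
      apply h
      rw [← snf j]
      exact (bN j).2
    · intro h x hx
      have h1 := bN.sum_repr ⟨x, hx⟩
      have h2 : x = ∑ j, bN.repr ⟨x, hx⟩ j • (bN j : V → ℤ) := by
        have := congrArg (fun y : N => (y : V → ℤ)) h1
        simp only [Submodule.coe_sum, Submodule.coe_smul] at this
        exact this.symm
      rw [h2]
      apply Submodule.sum_mem
      intro j _
      apply Submodule.smul_mem
      rw [snf j]
      exact h j
  rw [hN2]
  have hpow : ∀ (g : G) (c : ℤ), g ^ c = 1 ↔ g ^ c.natAbs = 1 := by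
    intro g c
    rcases Int.natAbs_eq c with h | h
    · conv_lhs => rw [h]
      rw [zpow_natCast]
    · conv_lhs => rw [h]
      rw [zpow_neg, zpow_natCast, inv_eq_one]
  constructor
  · intro h i
    by_cases hi : ∃ j, f j = i
    · obtain ⟨j, rfl⟩ := hi
      rw [hq, ← hpow, ← mon_smul]
      exact h j
    · simp only [q, dif_neg hi, pow_zero]
  · intro h j
    have h1 := h (f j)
    rw [hq, ← hpow, ← mon_smul] at h1
    exact h1

end Pool.Agent.Helper9.FT
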