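import Pool.Agent.Helper62.RO.Strata

/-!
# Dimensions of products with tori
-/

namespace Pool.Agent.Helper9.FT

open TensorProduct Polynomial
open Pool.Agent.Helper62.TS
open Pool.Agent.Helper62.RO

theorem dim_laurent (A : Type) [CommRing A] :
    ringKrullDim A + 1 ≤ ringKrullDim (Localization.Away (X : A[X])) := by
  set L := Localization.Away (X : A[X]) with hL
  set r : L := algebraMap A[X] L (X - C 1) with hr
  have h1 : r ∈ nonZeroDivisors L := by
    apply IsLocalization.map_nonZeroDivisors_le (Submonoid.powers (X : A[X])) L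
    exact ⟨_, (monic_X_sub_C (1 : A)).mem_nonZeroDivisors, rfl⟩
  have h2 := ringKrullDim_quotient_succ_le_of_nonZeroDivisor h1
  refine le_trans ?_ h2
  have h3 : IsUnit ((evalRingHom (1 : A)) X) := by simp
  let φ : L →+* A := IsLocalization.Away.lift (X : A[X]) h3
  have h4 : ∀ p : A[X], φ (algebraMap A[X] L p) = p.eval 1 := by
    intro p
    exact IsLocalization.Away.lift_eq (X : A[X]) h3 p
  have h5 : ∀ x ∈ Ideal.span {r}, φ x = 0 := by
    intro x hx
    obtain ⟨c, rfl⟩ := Ideal.mem_span_singleton'.1 hx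
    rw [map_mul, hr, h4]
    simp
  let ψ : (L ⧸ Ideal.span {r}) →+* A := Ideal.Quotient.lift _ φ h5
  have h6 : Function.Surjective ψ := by
    intro a
    refine ⟨Ideal.Quotient.mk _ (algebraMap A[X] L (C a)), ?_⟩
    rw [Ideal.Quotient.lift_mk, h4, eval_C]
  exact add_le_add (ringKrullDim_le_of_surjective ψ h6) le_rfl

variable {k : Type} [Field k]

/-- the product with the line -/
theorem rep_line {E : Fun k} {p : Pr E} {A : Type} [CommRing A] [Algebra k A] {a : E.obj A}
    (h : Rep E p A a) :
    Rep (E.prod line) (fun W _ _ x => p W x.1) A[X]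
      (E.map (Algebra.ofId A A[X] |>.restrictScalars k) a, X) := by
  refine ⟨?_, ?_, ?_⟩
  · intro W _ _ f
    change p W (E.map f (E.map _ a))
    rw [← E.comp_map]
    exact h.mem W _
  · rintro W _ _ ⟨x, w⟩ hx
    obtain ⟨f, hf⟩ := h.ex W x hx
    refine ⟨Polynomial.eval₂AlgHom f w (fun _ => .all _ _), Prod.ext ?_ ?_⟩
    · change E.map _ (E.map _ a) = x
      rw [← E.comp_map, ← hf]
      congr 1
      ext b
      change Polynomial.eval₂ _ w (C b) = f b
      simp
    · change Polynomial.eval₂ _ w X = w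
      simp
  · intro W _ _ f g hfg
    have h1 : E.map f (E.map _ a) = E.map g (E.map _ a) := congrArg Prod.fst hfg
    have h2 : f X = g X := congrArg Prod.snd hfg
    rw [← E.comp_map, ← E.comp_map] at h1
    have h3 := h.uniq W _ _ h1
    have h4 : (f : A[X] →+* W) = (g : A[X] →+* W) := by
      apply Polynomial.ringHom_ext
      · intro b
        exact DFunLike.congr_fun h3 b
      · exact h2
    exact AlgHom.ext fun b => RingHom.congr_fun h4 b

/-- the product with one copy of the multiplicative group -/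
theorem rep_gm {E : Fun k} {p : Pr E} {A : Type} [CommRing A] [Algebra k A] {a : E.obj A}
    (h : Rep E p A a) :
    ∃ b, Rep (E.prod line) (fun W _ _ x => p W x.1 ∧ IsUnit x.2)
      (Localization.Away (X : A[X])) b :=
  ⟨_, (rep_line h).opn (crdLine.snd E)⟩

/-- adding one coordinate to a torus -/
theorem good_tor_option {M : Cls k} {E : Fun k} {p : Pr E} {κ : Type}
    (h : Good M ((E.prod (Tor κ)).prod line) (fun W _ _ x => p W x.1.1 ∧ IsUnit x.2)) :
    Good M (E.prod (Tor (Option κ))) (fun W _ _ x => p W x.1) := by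
  refine h.iso (E' := E.prod (Tor (Option κ)))
    (fun W _ _ (x : ((E.prod (Tor κ)).prod line).obj W) =>
      (x.1.1, fun i => i.elim (toU (fun _ : Unit => x.2) ()) x.1.2))
    (fun W _ _ (x : (E.prod (Tor (Option κ))).obj W) =>
      ((x.1, fun i => x.2 (some i)), (x.2 none : W))) ?_ ?_ ?_ ?_ ?_
  · rintro W _ _ x ⟨h1, h2⟩
    exact h1
  · rintro W _ _ x h1
    exact ⟨h1, (x.2 none).isUnit⟩
  · rintro W _ _ ⟨⟨x, y⟩, w⟩ ⟨h1, h2⟩
    refine Prod.ext rfl ?_
    exact toU_val (y := fun _ : Unit => w) (i := ()) h2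
  · rintro W _ _ ⟨x, y⟩ h1
    refine Prod.ext rfl ?_
    funext i
    cases i with
    | none =>
      ext
      exact toU_val (y := fun _ : Unit => (y none : W)) (i := ()) (y none).isUnit
    | some i => rfl
  · rintro W V _ _ _ _ f ⟨⟨x, y⟩, w⟩ ⟨h1, h2⟩
    refine Prod.ext rfl ?_
    funext i
    cases i with
    | none =>
      ext
      change f (toU (fun _ : Unit => w) () : Wˣ) = (toU (fun _ : Unit => f w) () : Vˣ)
      have h3 : IsUnit w := h2
      rw [toU_val (y := fun _ : Unit => w) (i := ()) h3,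
        toU_val (y := fun _ : Unit => f w) (i := ()) (h3.map f)]
    | some i => rfl

/-- reindexing a torus -/
theorem good_tor_equiv {M : Cls k} {E : Fun k} {p : Pr E} {κ κ' : Type} (e : κ ≃ κ')
    (h : Good M (E.prod (Tor κ)) (fun W _ _ x => p W x.1)) :
    Good M (E.prod (Tor κ')) (fun W _ _ x => p W x.1) := by
  refine h.iso (E' := E.prod (Tor κ'))
    (fun W _ _ (x : (E.prod (Tor κ)).obj W) => (x.1, fun i => x.2 (e.symm i)))
    (fun W _ _ (x : (E.prod (Tor κ')).obj W) => (x.1, fun i => x.2 (e i)))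
    (fun W _ _ x h1 => h1) (fun W _ _ x h1 => h1) ?_ ?_ (fun _ _ _ _ _ _ _ _ _ => rfl)
  · rintro W _ _ ⟨x, y⟩ -
    refine Prod.ext rfl ?_
    funext i
    change y (e.symm (e i)) = y i
    rw [e.symm_apply_apply]
  · rintro W _ _ ⟨x, y⟩ -
    refine Prod.ext rfl ?_
    funext i
    change y (e (e.symm i)) = y i
    rw [e.apply_symm_apply]

theorem good_tor_empty {M : Cls k} {E : Fun k} {p : Pr E} (h : Good M E p) :
    Good M (E.prod (Tor PEmpty)) (fun W _ _ x => p W x.1) := by
  refine h.iso (E' := E.prod (Tor PEmpty))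
    (fun W _ _ (x : E.obj W) => (x, fun i => i.elim))
    (fun W _ _ (x : (E.prod (Tor PEmpty)).obj W) => x.1)
    (fun W _ _ x h1 => h1) (fun W _ _ x h1 => h1) (fun _ _ _ _ _ => rfl) ?_ ?_
  · rintro W _ _ ⟨x, y⟩ -
    refine Prod.ext rfl ?_
    funext i
    exact i.elim
  · rintro W V _ _ _ _ f x -
    refine Prod.ext rfl ?_
    funext i
    exact i.elim

/-- The dimension of the product with a torus. -/
theorem dim_tor (κ : Type) [Finite κ] {E : Fun k} {p : Pr E} {A : Type} [CommRing A]
    [Algebra k A] {a : E.obj A} (h : Rep E p A a) :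
    Good (fun B _ _ => ringKrullDim A + (Nat.card κ : WithBot ℕ∞) ≤ ringKrullDim B)
      (E.prod (Tor κ)) (fun W _ _ x => p W x.1) := by
  induction κ using Finite.induction_empty_option with
  | of_equiv e ih =>
    have h1 := good_tor_equiv e ih
    rwa [Nat.card_congr e] at h1
  | h_empty =>
    apply good_tor_empty
    refine ⟨A, _, _, a, h, ?_⟩
    simp
  | h_option ih =>
    rename_i κ _
    obtain ⟨B, _, _, b, hb, hB⟩ := ih
    obtain ⟨c, hc⟩ := rep_gm hb
    apply good_tor_option
    refine ⟨_, _, _, c, hc, ?_⟩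
    have h1 := dim_laurent B
    have h2 : Nat.card (Option κ) = Nat.card κ + 1 := Finite.card_option
    rw [h2, Nat.cast_add, Nat.cast_one, ← add_assoc]
    exact (add_le_add hB le_rfl).trans h1

/-- tori are products of curves -/
theorem good_torus {Adm : ℕ → Prop} {M : Cls k} (hM : KClass k Adm M) (κ : Type) [Finite κ]
    {E : Fun k} {p : Pr E} (h : Good M E p) :
    Good M (E.prod (Tor κ)) (fun W _ _ x => p W x.1) := by
  induction κ using Finite.induction_empty_option with
  | of_equiv e ih => exact good_tor_equiv e ih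
  | h_empty => exact good_tor_empty h
  | h_option ih =>
    apply good_tor_option
    have h1 : Good (Cv k) (line (k := k)) (fun W _ _ x => True) := by
      have h2 : Rep (line (k := k)) (fun W _ _ x => True) k[X] (X : k[X]) := by
        refine ⟨fun _ _ _ _ => trivial, ?_, ?_⟩
        · intro W _ _ x _
          exact ⟨Polynomial.aeval x, Polynomial.aeval_X x⟩
        · intro W _ _ f g hfg
          exact Polynomial.algHom_ext hfg
      refine ⟨k[X], _, _, _, h2, inferInstance, ?_⟩
      rw [Polynomial.ringKrullDim_of_isNoetherianRing, ringKrullDim_eq_zero_of_field]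
      simp
    have h2 := (h1.cv_opn crdLine).of_curve hM
    have h3 := ih.prod hM h2
    exact h3.congr (fun W _ _ x => by
      constructor
      · rintro ⟨h1, -, h2⟩
        exact ⟨h1, h2⟩
      · rintro ⟨h1, h2⟩
        exact ⟨h1, trivial, h2⟩)

end Pool.Agent.Helper9.FT
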