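import Pool.Agent.Helper9.FT.FlatDefs
import Pool.Agent.Helper62.TS.MorClass

/-!
# The class `FlatClass` on the level of rings
-/

namespace Pool.Agent.Helper9.FT

open AlgebraicGeometry CategoryTheory TensorProduct Polynomial
open Pool.Agent.Helper65.Mor (FGen CurveProduct closedOpen_span arithmetic_of_fgen
  comap_adjoinRoot_surjective)
open Pool.Agent.Helper62.TS (Kum RClass fgen_of_ft curveProduct_ft)

/-- finitely generated rings whose spectrum is in `FlatClass` -/
def FlatQ (A : Type) [CommRing A] : Prop := FGen A ∧ FlatClass (Spec (CommRingCat.of A))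

theorem flatQ_iso (A B : Type) [CommRing A] [CommRing B] (e : A ≃+* B) (h : FlatQ A) :
    FlatQ B :=
  ⟨h.1.of_surjective (e : A →+* B) e.surjective,
    FlatClass.iso _ _ (Scheme.Spec.mapIso e.toCommRingCatIso.symm.op) h.2⟩

theorem flatQ_glue (A : Type) [CommRing A] (a : A) (hA : FGen A)
    (h1 : FlatQ (A ⧸ Ideal.span {a})) (h2 : FlatQ (Localization.Away a)) : FlatQ A :=
  ⟨hA, FlatClass.glue _ _ _ _ _ (arithmetic_of_fgen hA) (closedOpen_span a) h1.2 h2.2⟩

theorem flatQ_opn (A : Type) [CommRing A] (a : A) (hA : FGen A)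
    (h1 : FlatQ (A ⧸ Ideal.span {a})) (h2 : FlatQ A) : FlatQ (Localization.Away a) :=
  ⟨hA.away a, FlatClass.isOpen _ _ _ _ _ (closedOpen_span a) h2.2 h1.2⟩

theorem flatQ_closed (A : Type) [CommRing A] (a : A) (hA : FGen A)
    (h1 : FlatQ (Localization.Away a)) (h2 : FlatQ A) : FlatQ (A ⧸ Ideal.span {a}) :=
  ⟨hA.quot _, FlatClass.closed _ _ _ _ _ (closedOpen_span a) h2.2 h1.2⟩

theorem flatQ_curves (k A : Type) [Field k] [Finite k] [CommRing A] [Algebra k A]
    (h : CurveProduct k A) : FlatQ A :=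
  ⟨fgen_of_ft (curveProduct_ft h), FlatClass.curves k A h⟩

/-- descent along a monic polynomial of positive degree -/
theorem flatQ_adjoin (A : Type) [CommRing A] (hA : FGen A) {h : A[X]} (hm : h.Monic)
    (hd : h.natDegree ≠ 0) (hq : FlatQ (AdjoinRoot h)) : FlatQ A := by
  refine ⟨hA, ?_⟩
  have h1 : Module.Finite A (AdjoinRoot h) := hm.finite_adjoinRoot
  have h2 : Module.Free A (AdjoinRoot h) := hm.free_adjoinRoot
  refine FlatClass.finiteFlat _ _ (Spec.map (CommRingCat.ofHom (algebraMap A (AdjoinRoot h))))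
    (arithmetic_of_fgen hA) ?_ ?_ ⟨comap_adjoinRoot_surjective hm hd⟩ hq.2
  · rw [IsFinite.SpecMap_iff]
    exact RingHom.finite_algebraMap.2 h1
  · rw [Flat.SpecMap_iff]
    exact RingHom.flat_algebraMap_iff.2 inferInstance

/-- descent along the adjunction of a `d`-th root -/
theorem flatQ_kummer (k A : Type) [Field k] [Finite k] [CommRing A] [Algebra k A] (a : A) (d : ℕ)
    (hA : FGen A) (hd : d ≠ 0) (h : FlatQ (Kum A a d)) : FlatQ A := by
  rcases subsingleton_or_nontrivial A with hs | hs
  · apply flatQ_curves k A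
    have h1 : CurveProduct k (k ⊗[k] A) := by
      refine .tensor k A .base ?_ ?_
      · exact Algebra.FiniteType.of_surjective (Algebra.ofId k A)
          (fun x => ⟨0, Subsingleton.elim _ _⟩)
      · rw [ringKrullDim_eq_bot_of_subsingleton]
        exact bot_le
    exact .iso _ _ h1 (Algebra.TensorProduct.lid k A)
  · exact flatQ_adjoin A hA (monic_X_pow_sub_C a hd) (by rwa [natDegree_X_pow_sub_C]) h

/-- `FlatQ` has all properties used for Kummer covers, with all degrees. -/
theorem flat_rclass (k : Type) [Field k] [Finite k] : RClass k FlatQ where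
  iso A B _ _ e h := flatQ_iso A B e h
  glue A _ _ a hA h1 h2 := flatQ_glue A a (fgen_of_ft hA) h1 h2
  opn A _ _ a hA h1 h2 := flatQ_opn A a (fgen_of_ft hA) h1 h2
  kummer A _ _ a d hA _ hd h :=
    flatQ_kummer k A a d (fgen_of_ft hA) (by rintro rfl; exact hd (by simp))
      (flatQ_iso _ _ (Algebra.TensorProduct.lid k (Kum A a d)).toRingEquiv (h k .base))
  curves A _ _ h := flatQ_curves k A h

end Pool.Agent.Helper9.FT
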