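import Pool.Agent.Helper65.Mor.MorinDefs

/-!
# A class of arithmetic schemes closed under finite flat descent
-/

namespace Pool.Agent.Helper9.FT

open AlgebraicGeometry CategoryTheory CategoryTheory.Limits TensorProduct
open Pool.Agent.Helper65.Mor (Arithmetic ClosedOpen CurveProduct)

/-- The smallest class of schemes which contains the products of affine curves over finite fields
and which is closed under isomorphisms, two-out-of-three for a closed subscheme and its open
complement, and descent along finite flat surjective morphisms. -/
inductive FlatClass : Scheme.{0} → Prop
  /-- products of affine curves over finite fields -/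
  | curves (k R : Type) [Field k] [Finite k] [CommRing R] [Algebra k R] :
      CurveProduct k R → FlatClass (Spec (CommRingCat.of R))
  /-- invariance under isomorphism -/
  | iso (X Y : Scheme.{0}) : (X ≅ Y) → FlatClass X → FlatClass Y
  /-- two-out-of-three for a closed subscheme `Z` of `X` and its open complement `U` -/
  | glue (Z X U : Scheme.{0}) (i : Z ⟶ X) (j : U ⟶ X) : Arithmetic X → ClosedOpen i j →
      FlatClass Z → FlatClass U → FlatClass X
  /-- two-out-of-three for a closed subscheme `Z` of `X` and its open complement `U` -/
  | closed (Z X U : Scheme.{0}) (i : Z ⟶ X) (j : U ⟶ X) : ClosedOpen i j →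
      FlatClass X → FlatClass U → FlatClass Z
  /-- two-out-of-three for a closed subscheme `Z` of `X` and its open complement `U` -/
  | isOpen (Z X U : Scheme.{0}) (i : Z ⟶ X) (j : U ⟶ X) : ClosedOpen i j →
      FlatClass X → FlatClass Z → FlatClass U
  /-- schemes with a finite flat surjective cover which is a member -/
  | finiteFlat (X Y : Scheme.{0}) (f : Y ⟶ X) : Arithmetic X → IsFinite f → Flat f →
      Surjective f → FlatClass Y → FlatClass X

end Pool.Agent.Helper9.FT
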