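import Pool.Agent.Helper9.FT.KCl

/-!
# The class of Morin and classes closed under transfer are closed under adjunction of roots
-/

namespace Pool.Agent.Helper9.FT

open AlgebraicGeometry CategoryTheory TensorProduct Polynomial
open Pool.Agent.Helper65.Mor (FGen CurveProduct Arithmetic ClosedOpen MorinClass)
open Pool.Agent.Helper62.TS

theorem fgen_of_arithmetic {A : Type} [CommRing A] (h : Arithmetic (Spec (CommRingCat.of A))) :
    FGen A := by
  obtain ⟨f, h1, -, -⟩ := h
  have h2 : f = Spec.map (CommRingCat.ofHom (Int.castRingHom A)) :=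
    specZIsTerminal.hom_ext _ _
  rw [h2, HasRingHomProperty.Spec_iff (P := @LocallyOfFiniteType)] at h1
  exact h1

theorem ft_of_fgen {k A : Type} [Field k] [CommRing A] [Algebra k A] (h : FGen A) :
    Algebra.FiniteType k A := by
  have h1 : Int.castRingHom A = (algebraMap k A).comp (Int.castRingHom k) :=
    RingHom.ext_int _ _
  rw [FGen, h1] at h
  exact RingHom.finiteType_algebraMap.1 (RingHom.FiniteType.of_comp_finiteType h)

/-- the class of Morin -/
theorem morin_kummerClosed (k : Type) [Field k] [Finite k] : KummerClosed k k MorinClass where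
  curves R _ _ hR := MorinClass.curves k R hR
  iso X Y e h := MorinClass.iso X Y e h
  glue Z X U i j hX hij hZ hU := MorinClass.glue Z X U i j hX hij hZ hU
  kummer A _ _ a d hA ha hd h := by
    have h1 := fgen_of_arithmetic hA
    have h2 : Algebra.FiniteType k A := ft_of_fgen h1
    have h3 : ∀ (E : Type) [CommRing E] [Algebra k E], CurveProduct k E →
        MorQ (E ⊗[k] Kum A a d) := by
      intro E _ _ hE
      refine ⟨fgen_of_ft (k := k) (ft_tensor (curveProduct_ft hE) ?_), h E hE⟩
      exact kum_ft h2
    exact ((morin_rcl k).kummer A a d h2 ha hd h3).2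

/-- classes closed under transfer -/
theorem transfer_kummerClosed (k F : Type) [Field k] [Finite k] [Field F]
    {P : Scheme.{0} → Prop} (hP : TransferClosed k P) : KummerClosed k F P where
  curves R _ _ hR := hP.curves R hR
  iso X Y e h := hP.iso X Y e h
  glue Z X U i j hX hij hZ hU := hP.glue Z X U i j hX hij hZ hU
  kummer A _ _ a d hA ha hd h := by
    have h1 := fgen_of_arithmetic hA
    have h2 : Algebra.FiniteType k A := ft_of_fgen h1
    have hd0 : d ≠ 0 := by rintro rfl; exact hd (by simp)
    have h3 : ∀ (E : Type) [CommRing E] [Algebra k E], CurveProduct k E →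
        PQ P (E ⊗[k] Kum A a d) := by
      intro E _ _ hE
      refine ⟨fgen_of_ft (k := k) (ft_tensor (curveProduct_ft hE) ?_), h E hE⟩
      exact kum_ft h2
    exact ((transfer_rcl k hP).kummer A a d h2 ha hd0 h3).2

end Pool.Agent.Helper9.FT
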