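import Pool.Agent.Helper9.FT.Torus2

/-!
# Polynomials whose exponents span an affine space of dimension at most two
-/

namespace Pool.Agent.Helper9.FT

open TensorProduct
open Pool.Agent.Helper62.TS
open Pool.Agent.Helper62.RO

variable {k : Type} [Field k] {ι : Type}

/-- extension by zero -/
def ext0 (σ : ι → Bool) {W : Type} [CommRing W] (y : {i // σ i = true} → W) : ι → W := fun i =>
  if h : σ i = true then y ⟨i, h⟩ else 0

/-- the restriction of a polynomial to a coordinate subspace -/
noncomputable def resPoly (σ : ι → Bool) (f : MvPolynomial ι k) :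
    MvPolynomial {i // σ i = true} k :=
  MvPolynomial.aeval (ext0 σ MvPolynomial.X) f

theorem aeval_resPoly (σ : ι → Bool) (f : MvPolynomial ι k) {W : Type} [CommRing W] [Algebra k W]
    (y : {i // σ i = true} → W) :
    MvPolynomial.aeval y (resPoly σ f) = MvPolynomial.aeval (ext0 σ y) f := by
  rw [resPoly, MvPolynomial.comp_aeval_apply]
  congr 2
  funext i
  by_cases h : σ i = true
  · simp [ext0, h]
  · simp [ext0, h]

theorem resPoly_ne_zero [Fintype ι] {σ : ι → Bool} {f : MvPolynomial ι k} {a : ι →₀ ℕ}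
    (ha : a ∈ f.support) (hσ : ∀ i, σ i = false → a i = 0) : resPoly σ f ≠ 0 := by
  classical
  intro h0
  have h1 : ∀ b : ι →₀ ℕ, (∏ i, (ext0 σ (MvPolynomial.X (R := k)) i) ^ b i :
      MvPolynomial {i // σ i = true} k) = if ∀ i, σ i = false → b i = 0 then
        MvPolynomial.monomial (b.subtypeDomain (fun i => σ i = true)) 1 else 0 := by
    intro b
    split_ifs with h
    · have h2 : (∏ i, (ext0 σ (MvPolynomial.X (R := k)) i) ^ b i :
          MvPolynomial {i // σ i = true} k) = ∏ i ∈ Finset.univ.filter (fun i => σ i = true),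
            (ext0 σ (MvPolynomial.X (R := k)) i) ^ b i := by
        rw [Finset.prod_filter]
        refine Finset.prod_congr rfl fun i _ => ?_
        by_cases hi : σ i = true
        · rw [if_pos hi]
        · rw [if_neg hi, h i (by simpa using hi), pow_zero]
      rw [h2, Finset.prod_subtype (Finset.univ.filter (fun i => σ i = true))
        (p := fun i => σ i = true) (by simp), MvPolynomial.monomial_eq, MvPolynomial.C_1, one_mul,
        Finsupp.prod_fintype _ _ (fun _ => pow_zero _)]
      refine Finset.prod_congr rfl fun v _ => ?_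
      rw [ext0, dif_pos v.2]
      rfl
    · push Not at h
      obtain ⟨i, hi, hbi⟩ := h
      apply Finset.prod_eq_zero (Finset.mem_univ i)
      rw [ext0, dif_neg (by simp [hi]), zero_pow hbi]
  have h2 : (resPoly σ f).coeff (a.subtypeDomain (fun i => σ i = true)) = f.coeff a := by
    rw [resPoly, MvPolynomial.aeval_def, MvPolynomial.eval₂_eq', MvPolynomial.coeff_sum,
      Finset.sum_eq_single a]
    · rw [h1, if_pos hσ, MvPolynomial.algebraMap_eq, MvPolynomial.C_mul_monomial, mul_one,
        MvPolynomial.coeff_monomial, if_pos rfl]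
    · intro b _ hb
      rw [h1]
      split_ifs with h3
      · rw [MvPolynomial.algebraMap_eq, MvPolynomial.C_mul_monomial, mul_one,
          MvPolynomial.coeff_monomial, if_neg]
        intro h4
        apply hb
        ext i
        by_cases hi : σ i = true
        · have := DFunLike.congr_fun h4 ⟨i, hi⟩
          simpa using this
        · rw [h3 i (by simpa using hi), hσ i (by simpa using hi)]
      · rw [mul_zero, MvPolynomial.coeff_zero]
    · intro h3
      exact absurd ha h3
  rw [h0, MvPolynomial.coeff_zero] at h2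
  exact (MvPolynomial.mem_support_iff.1 ha) h2.symm

theorem good_res [Fintype ι] (σ : ι → Bool) (f : MvPolynomial ι k) :
    Good (Dm k (ringKrullDim (MvPolynomial {i // σ i = true} k ⧸ Ideal.span {resPoly σ f})))
      (Aff ι) (fun W _ _ x => VS {f} W x ∧ ∀ i, cond (crd i) (σ i) W x) := by
  have h1 := (rep_quot (k := k) {resPoly σ f}).opn (crdProd Finset.univ)
  have h2 : Good (Dm k (ringKrullDim (MvPolynomial {i // σ i = true} k ⧸
      Ideal.span {resPoly σ f}))) (Aff {i // σ i = true})
      (fun W _ _ x => VS {resPoly σ f} W x ∧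
        IsUnit ((crdProd (k := k) Finset.univ).val W x)) := by
    refine ⟨_, _, _, _, h1, ?_, dim_away_le _⟩
    exact Algebra.FiniteType.trans
      (S := MvPolynomial {i // σ i = true} k ⧸ Ideal.span {resPoly σ f})
      inferInstance inferInstance
  have h3 : ∀ (W : Type) [CommRing W] [Algebra k W] (y : {i // σ i = true} → W),
      IsUnit ((crdProd (k := k) Finset.univ).val W y) ↔ ∀ v, IsUnit (y v) := by
    intro W _ _ y
    change IsUnit (∏ i, y i) ↔ _
    rw [IsUnit.prod_iff]
    simp
  have h4 : ∀ (W : Type) [CommRing W] [Algebra k W] (y : {i // σ i = true} → W),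
      VS {resPoly σ f} W y ↔ VS {f} W (ext0 σ y) := by
    intro W _ _ y
    simp only [VS, Set.mem_singleton_iff, forall_eq]
    rw [aeval_resPoly]
  have h5 : ∀ (W : Type) [CommRing W] [Algebra k W] (x : ι → W),
      (∀ i, cond (crd (k := k) i) (σ i) W x) → ext0 σ (fun v => x v.1) = x := by
    intro W _ _ x hx
    funext i
    by_cases hi : σ i = true
    · rw [ext0, dif_pos hi]
    · rw [ext0, dif_neg hi]
      have h6 := hx i
      change (if σ i = true then IsUnit (x i) else x i = 0) at h6
      rw [if_neg hi] at h6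
      exact h6.symm
  refine h2.iso (E' := Aff ι)
    (fun W _ _ (y : (Aff {i // σ i = true}).obj W) => ext0 σ y)
    (fun W _ _ (x : (Aff ι).obj W) => (fun v => x v.1 : {i // σ i = true} → W)) ?_ ?_ ?_ ?_ ?_
  · rintro W _ _ y ⟨h6, h7⟩
    refine ⟨(h4 W y).1 h6, fun i => ?_⟩
    change (if σ i = true then IsUnit (ext0 σ y i) else ext0 σ y i = 0)
    by_cases hi : σ i = true
    · rw [if_pos hi, ext0, dif_pos hi]
      exact (h3 W y).1 h7 ⟨i, hi⟩
    · rw [if_neg hi, ext0, dif_neg hi]
  · rintro W _ _ x ⟨h6, h7⟩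
    refine ⟨(h4 W _).2 ?_, (h3 W _).2 fun v => ?_⟩
    · rw [h5 W x h7]
      exact h6
    · have h8 := h7 v.1
      change (if σ v.1 = true then IsUnit (x v.1) else x v.1 = 0) at h8
      rwa [if_pos v.2] at h8
  · rintro W _ _ y ⟨h6, h7⟩
    funext v
    exact dif_pos v.2
  · rintro W _ _ x ⟨h6, h7⟩
    exact h5 W x h7
  · rintro W V _ _ _ _ g y -
    funext i
    change g (ext0 σ y i) = ext0 σ (fun v => g (y v)) i
    by_cases hi : σ i = true
    · rw [ext0, dif_pos hi, ext0, dif_pos hi]
    · rw [ext0, dif_neg hi, ext0, dif_neg hi, map_zero]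

/-- polynomials with coplanar exponents -/
theorem ug_planar {Adm : ℕ → Prop} {M : Cls k} (hM : KClass k Adm M) [Finite ι]
    (f : MvPolynomial ι k)
    (hf : Module.finrank ℚ (vectorSpan ℚ
      (Set.range fun d : f.support => fun i => ((d.1 i : ℕ) : ℚ))) ≤ 2) :
    UG Adm M {f} := by
  classical
  have := Fintype.ofFinite ι
  apply ug_torus hM
  intro σ
  refine ⟨_, good_res σ f, ?_⟩
  have h1 : ringKrullDim (MvPolynomial {i // σ i = true} k) =
      (Fintype.card {i // σ i = true} : WithBot ℕ∞) := by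
    rw [MvPolynomial.ringKrullDim_of_isNoetherianRing, ringKrullDim_eq_zero_of_field, zero_add,
      Nat.card_eq_fintype_card]
  have h2 : DS σ {f} ≤ vectorSpan ℚ
      (Set.range fun d : f.support => fun i => ((d.1 i : ℕ) : ℚ)) := by
    rw [DS, Submodule.span_le]
    rintro _ ⟨g, hg, a, ha, b, hb, -, -, rfl⟩
    obtain rfl : g = f := hg
    exact vsub_mem_vectorSpan ℚ ⟨⟨a, ha⟩, rfl⟩ ⟨⟨b, hb⟩, rfl⟩
  have h3 := (Submodule.finrank_mono h2).trans hf
  by_cases h4 : ∃ a ∈ f.support, ∀ i, σ i = false → a i = 0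
  · obtain ⟨a, ha, haσ⟩ := h4
    have h5 := ringKrullDim_quotient_succ_le_of_nonZeroDivisor
      (mem_nonZeroDivisors_of_ne_zero (resPoly_ne_zero ha haσ))
    rw [h1] at h5
    have h6 : (Module.finrank ℚ (DS σ {f}) : WithBot ℕ∞) ≤ 1 + 1 := by
      have : (Module.finrank ℚ (DS σ {f}) : WithBot ℕ∞) ≤ ((2 : ℕ) : WithBot ℕ∞) := by
        exact_mod_cast h3
      refine this.trans (le_of_eq ?_)
      norm_num
    calc _ ≤ ringKrullDim (MvPolynomial {i // σ i = true} k ⧸ Ideal.span {resPoly σ f}) +
          (1 + 1) := add_le_add le_rfl h6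
      _ = (ringKrullDim (MvPolynomial {i // σ i = true} k ⧸ Ideal.span {resPoly σ f}) + 1) +
          1 := (add_assoc _ _ _).symm
      _ ≤ (Fintype.card {i // σ i = true} : WithBot ℕ∞) + 1 := add_le_add h5 le_rfl
      _ = _ := by rw [Nat.cast_add, Nat.cast_one]
  · have h5 : DS σ {f} = ⊥ := by
      rw [DS, Submodule.span_eq_bot]
      rintro _ ⟨g, hg, a, ha, b, hb, h6, h7, rfl⟩
      obtain rfl : g = f := hg
      exact absurd ⟨a, ha, h6⟩ h4
    rw [h5, finrank_bot, Nat.cast_zero, add_zero]
    refine (ringKrullDim_quotient_le _).trans ?_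
    rw [h1]
    exact_mod_cast Nat.le_succ _

end Pool.Agent.Helper9.FT
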