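import Pool.Agent.Helper9.FT.DimTor
import Pool.Agent.Helper9.FT.Shapes

/-!
# Strata of torus complexity at most one
-/

namespace Pool.Agent.Helper9.FT

open TensorProduct
open Pool.Agent.Helper62.TS
open Pool.Agent.Helper62.RO

theorem map_mon {V : Type} [Fintype V] {G H : Type} [CommGroup G] [CommGroup H] (f : G →* H)
    (u : V → G) (m : V → ℤ) : f (mon u m) = mon (fun v => f (u v)) m := by
  simp [mon, map_prod, map_zpow]

theorem mon_one {V : Type} [Fintype V] {G : Type} [CommGroup G] (m : V → ℤ) :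
    mon (1 : V → G) m = 1 := by simp [mon]

theorem mon_sum {V I : Type} [Fintype V] {G : Type} [CommGroup G] (u : V → G)
    (s : Finset I) (z : I → ℤ) (c : I → V → ℤ) :
    mon u (∑ j ∈ s, z j • c j) = ∏ j ∈ s, mon u (c j) ^ z j := by
  classical
  induction s using Finset.induction_on with
  | empty => simp [mon_zero]
  | insert a s ha ih => rw [Finset.sum_insert ha, Finset.prod_insert ha, mon_add, ih, mon_smul]

variable {k : Type} [Field k]

/-- finitely generated algebras of dimension at most `d` -/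
def Dm (k : Type) [Field k] (d : WithBot ℕ∞) : Cls k := fun A _ _ =>
  Algebra.FiniteType k A ∧ ringKrullDim A ≤ d

theorem Dm.ft {d : WithBot ℕ∞} {E : Fun k} {p : Pr E} (h : Good (Dm k d) E p) :
    Good (Ft k) E p := h.mono (fun A _ _ hA => hA.1)

theorem Dm.kum {d : WithBot ℕ∞} {E : Fun k} {p : Pr E} (h : Good (Dm k d) E p) (u : Crd E)
    (e : ℕ) (he : e ≠ 0) :
    Good (Dm k d) (E.prod line) (fun W _ _ x => p W x.1 ∧ x.2 ^ e = u.val W x.1) := by
  obtain ⟨A, _, _, a, ha, hA⟩ := h
  have hfin : Module.Finite A (Kum A (u.val A a) e) :=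
    (Polynomial.monic_X_pow_sub_C _ he).finite_adjoinRoot
  exact ⟨_, _, _, _, ha.kum u e, Algebra.FiniteType.trans (S := A) hA.1 inferInstance,
    (dim_integral_le (R := A)).trans hA.2⟩

/-- simultaneous Kummer covers do not raise the dimension -/
theorem Dm.kumfin {d : WithBot ℕ∞} {E : Fun k} {p : Pr E} (h : Good (Dm k d) E p) (κ : Type)
    [Finite κ] (u : κ → Crd E) (e : κ → ℕ) (he : ∀ i, e i ≠ 0) :
    Good (Dm k d) (E.prod (Aff κ)) (fun W _ _ x => p W x.1 ∧
      ∀ i, x.2 i ^ e i = (u i).val W x.1) := by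
  induction κ using Finite.induction_empty_option with
  | of_equiv ε ih =>
    rename_i α β
    refine (ih (fun i => u (ε i)) (fun i => e (ε i)) (fun i => he _)).iso (E' := E.prod (Aff β))
      (fun W _ _ (x : (E.prod (Aff α)).obj W) => (x.1, fun i => x.2 (ε.symm i)))
      (fun W _ _ (x : (E.prod (Aff β)).obj W) => (x.1, fun i => x.2 (ε i))) ?_ ?_ ?_ ?_
      (fun _ _ _ _ _ _ _ _ _ => rfl)
    · rintro W _ _ ⟨x, y⟩ ⟨h1, h2⟩
      refine ⟨h1, fun i => ?_⟩
      have := h2 (ε.symm i)
      simp only [ε.apply_symm_apply] at this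
      exact this
    · rintro W _ _ ⟨x, y⟩ ⟨h1, h2⟩
      exact ⟨h1, fun i => h2 (ε i)⟩
    · rintro W _ _ ⟨x, y⟩ -
      refine Prod.ext rfl ?_
      funext i
      change y (ε.symm (ε i)) = y i
      rw [ε.symm_apply_apply]
    · rintro W _ _ ⟨x, y⟩ -
      refine Prod.ext rfl ?_
      funext i
      change y (ε (ε.symm i)) = y i
      rw [ε.apply_symm_apply]
  | h_empty =>
    refine h.iso (E' := E.prod (Aff PEmpty))
      (fun W _ _ (x : E.obj W) => (x, fun i => i.elim))
      (fun W _ _ (x : (E.prod (Aff PEmpty)).obj W) => x.1)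
      (fun W _ _ x h1 => ⟨h1, fun i => i.elim⟩) (fun W _ _ x h1 => h1.1) (fun _ _ _ _ _ => rfl)
      ?_ ?_
    · rintro W _ _ ⟨x, y⟩ -
      refine Prod.ext rfl ?_
      funext i
      exact i.elim
    · rintro W V _ _ _ _ f x -
      refine Prod.ext rfl ?_
      funext i
      exact i.elim
  | h_option ih =>
    rename_i κ _
    have h1 := (ih (fun i => u (some i)) (fun i => e (some i)) (fun i => he _))
    have h2 := Dm.kum h1 ((u none).fst (Aff κ)) (e none) (he none)
    refine h2.iso (E' := E.prod (Aff (Option κ)))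
      (fun W _ _ (x : ((E.prod (Aff κ)).prod line).obj W) => (x.1.1, fun i => i.elim x.2 x.1.2))
      (fun W _ _ (x : (E.prod (Aff (Option κ))).obj W) => ((x.1, fun i => x.2 (some i)), x.2 none))
      ?_ ?_ (fun _ _ _ _ _ => rfl) ?_ ?_
    · rintro W _ _ ⟨⟨x, y⟩, w⟩ ⟨⟨h1, h2⟩, h3⟩
      refine ⟨h1, fun i => ?_⟩
      cases i with
      | none => exact h3
      | some i => exact h2 i
    · rintro W _ _ ⟨x, y⟩ ⟨h1, h2⟩
      exact ⟨⟨h1, fun i => h2 (some i)⟩, h2 none⟩
    · rintro W _ _ ⟨x, y⟩ -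
      refine Prod.ext rfl ?_
      funext i
      cases i <;> rfl
    · rintro W V _ _ _ _ f ⟨⟨x, y⟩, w⟩ -
      refine Prod.ext rfl ?_
      funext i
      cases i <;> rfl

section

variable {ι : Type} [Fintype ι] (σ : ι → Bool) (m : ι → ℕ)

/-- the exponent vector on a stratum -/
def exv (a : ι →₀ ℕ) : {i // σ i = true} → ℤ := fun v => (m v.1 : ℤ) * (a v.1 : ℤ)

/-- the point of a stratum with given roots of the coordinates -/
def pt (W : Type) [CommRing W] (s : {i // σ i = true} → Wˣ) : ι → W := fun i =>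
  if h : σ i = true then ((s ⟨i, h⟩ ^ m i : Wˣ) : W) else 0

/-- exponents which live on the stratum -/
def Liv (a : ι →₀ ℕ) : Prop := ∀ i, σ i = false → a i = 0

theorem prod_pt {W : Type} [CommRing W] (s : {i // σ i = true} → Wˣ) (a : ι →₀ ℕ)
    (ha : Liv σ a) : ∏ i, pt σ m W s i ^ a i = ((mon s (exv σ m a) : Wˣ) : W) := by
  classical
  have h1 : ∏ i, pt σ m W s i ^ a i = ∏ i ∈ Finset.univ.filter (fun i => σ i = true),
      pt σ m W s i ^ a i := by
    rw [Finset.prod_filter]
    refine Finset.prod_congr rfl fun i _ => ?_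
    by_cases h : σ i = true
    · rw [if_pos h]
    · rw [if_neg h, ha i (by simpa using h), pow_zero]
  rw [h1, Finset.prod_subtype (Finset.univ.filter (fun i => σ i = true))
    (p := fun i => σ i = true) (by simp)]
  rw [mon, Units.coe_prod]
  refine Finset.prod_congr rfl fun v _ => ?_
  rw [pt, dif_pos v.2, exv, zpow_mul, zpow_natCast, zpow_natCast, ← Units.val_pow_eq_pow_val]

theorem aeval_pt {W : Type} [CommRing W] [Algebra k W] (s : {i // σ i = true} → Wˣ)
    (f : MvPolynomial ι k) [DecidablePred (Liv σ)] :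
    MvPolynomial.aeval (pt σ m W s) f = ∑ a ∈ f.support.filter (Liv σ),
      algebraMap k W (f.coeff a) * ((mon s (exv σ m a) : Wˣ) : W) := by
  classical
  rw [MvPolynomial.aeval_def, MvPolynomial.eval₂_eq', Finset.sum_filter]
  refine Finset.sum_congr rfl fun a _ => ?_
  by_cases h : Liv σ a
  · rw [if_pos h, prod_pt σ m s a h]
  · rw [if_neg h]
    have h1 : ∃ i, σ i = false ∧ a i ≠ 0 := by
      by_contra h2
      apply h
      intro i hi
      by_contra h3
      exact h2 ⟨i, hi, h3⟩
    obtain ⟨i, hi, hai⟩ := h1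
    have h2 : ∏ i, pt σ m W s i ^ a i = 0 := by
      apply Finset.prod_eq_zero (Finset.mem_univ i)
      rw [pt, dif_neg (by simp [hi]), zero_pow hai]
    rw [h2, mul_zero]

/-- pairs of exponents of an equation which live on the stratum -/
def Pairs (S : Set (MvPolynomial ι k)) : Type :=
  {t : MvPolynomial ι k × (ι →₀ ℕ) × (ι →₀ ℕ) // t.1 ∈ S ∧ t.2.1 ∈ t.1.support ∧
    t.2.2 ∈ t.1.support ∧ Liv σ t.2.1 ∧ Liv σ t.2.2}

/-- the difference of the exponents -/
def dif {S : Set (MvPolynomial ι k)} (t : Pairs σ S) : {i // σ i = true} → ℤ :=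
  exv σ m t.1.2.1 - exv σ m t.1.2.2

theorem vs_of_eq {S : Set (MvPolynomial ι k)} {W : Type} [CommRing W] [Algebra k W]
    {s s' : {i // σ i = true} → Wˣ}
    (h : ∀ t : Pairs σ S, mon s (dif σ m t) = mon s' (dif σ m t))
    (hs : VS S W (pt σ m W s')) : VS S W (pt σ m W s) := by
  classical
  intro f hf
  have h1 := hs f hf
  rw [aeval_pt] at h1 ⊢
  rcases (f.support.filter (Liv σ)).eq_empty_or_nonempty with h2 | ⟨b, hb⟩
  · rw [h2, Finset.sum_empty]
  · rw [Finset.mem_filter] at hb
    have h3 : ∀ a ∈ f.support.filter (Liv σ), algebraMap k W (f.coeff a) *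
        ((mon s (exv σ m a) : Wˣ) : W) = ((mon s (exv σ m b) * (mon s' (exv σ m b))⁻¹ : Wˣ) : W) *
        (algebraMap k W (f.coeff a) * ((mon s' (exv σ m a) : Wˣ) : W)) := by
      intro a ha
      rw [Finset.mem_filter] at ha
      have h4 := h ⟨⟨f, a, b⟩, hf, ha.1, hb.1, ha.2, hb.2⟩
      have h5 : dif σ m (⟨⟨f, a, b⟩, hf, ha.1, hb.1, ha.2, hb.2⟩ : Pairs σ S) =
          exv σ m a + -(exv σ m b) := sub_eq_add_neg _ _
      rw [h5, mon_add, mon_add, mon_neg, mon_neg] at h4
      have h6 : mon s (exv σ m a) = (mon s (exv σ m b) * (mon s' (exv σ m b))⁻¹) *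
          mon s' (exv σ m a) := by
        have h7 := congrArg (fun x => x * mon s (exv σ m b)) h4
        simp only [inv_mul_cancel_right] at h7
        rw [h7]
        rw [mul_comm (mon s' (exv σ m a)), mul_comm, mul_assoc]
      rw [h6, Units.val_mul]
      ring
    rw [Finset.sum_congr rfl h3, ← Finset.mul_sum, h1, mul_zero]

/-- the space of the differences of the exponents of the equations, restricted to a stratum -/
def DS (S : Set (MvPolynomial ι k)) : Submodule ℚ (ι → ℚ) :=
  Submodule.span ℚ {x | ∃ f ∈ S, ∃ a ∈ f.support, ∃ b ∈ f.support, (∀ i, σ i = false → a i = 0) ∧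
    (∀ i, σ i = false → b i = 0) ∧ x = fun i => (a i : ℚ) - (b i : ℚ)}

theorem finrank_dif_le (S : Set (MvPolynomial ι k)) :
    Module.finrank ℚ (Submodule.span ℚ (Set.range fun t : Pairs σ S => castVec (dif σ m t))) ≤
      Module.finrank ℚ (DS σ S) := by
  let T : (ι → ℚ) →ₗ[ℚ] ({i // σ i = true} → ℚ) :=
    LinearMap.pi fun v => (m v.1 : ℚ) • LinearMap.proj v.1
  have h1 : Submodule.span ℚ (Set.range fun t : Pairs σ S => castVec (dif σ m t)) ≤
      (DS σ S).map T := by
    rw [Submodule.span_le]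
    rintro _ ⟨t, rfl⟩
    obtain ⟨⟨f, a, b⟩, h1, h2, h3, h4, h5⟩ := t
    refine ⟨fun i => (a i : ℚ) - (b i : ℚ), Submodule.subset_span ⟨f, h1, a, h2, b, h3, h4, h5,
      rfl⟩, ?_⟩
    funext v
    simp only [T, LinearMap.pi_apply, LinearMap.smul_apply, LinearMap.proj_apply, castVec, dif,
      exv, Pi.sub_apply, smul_eq_mul]
    push_cast
    ring
  exact (Submodule.finrank_mono h1).trans (Submodule.finrank_map_le _ _)

end

/-- the values of a monomial -/
def crdMon {V : Type} [Fintype V] (c : V → ℤ) : Crd (Tor (k := k) V) where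
  val W _ _ s := ((mon s c : Wˣ) : W)
  nat {W X} _ _ _ _ f s := by
    change ((Units.map (f : W →* X) (mon s c) : Xˣ) : X) = _
    rw [map_mon]

theorem um_mon {V : Type} [Fintype V] {W X : Type} [CommRing W] [Algebra k W] [CommRing X]
    [Algebra k X] (f : W →ₐ[k] X) (s : V → Wˣ) (c : V → ℤ) :
    um f (mon s c) = mon (fun v => um f (s v)) c := map_mon _ _ _

section

variable {ι : Type} {σ : ι → Bool} {ρ : ℕ} (f' : Fin ρ ↪ {i // σ i = true})

/-- the complementary coordinates -/
abbrev Co : Type := {v : {i // σ i = true} // ¬ ∃ j, f' j = v}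

/-- putting coordinates together -/
noncomputable def joinC {G : Type} (y1 : Fin ρ → G) (y2 : Co f' → G) : {i // σ i = true} → G :=
  open Classical in fun v => if h : ∃ j, f' j = v then y1 h.choose else y2 ⟨v, h⟩

theorem joinC_left {G : Type} (y1 : Fin ρ → G) (y2 : Co f' → G) (j : Fin ρ) :
    joinC f' y1 y2 (f' j) = y1 j := by
  have h1 : ∃ j', f' j' = f' j := ⟨j, rfl⟩
  rw [joinC, dif_pos h1, f'.injective h1.choose_spec]

theorem joinC_right {G : Type} (y1 : Fin ρ → G) (y2 : Co f' → G) (v : Co f') :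
    joinC f' y1 y2 v.1 = y2 v := by
  rw [joinC, dif_neg v.2]

theorem joinC_self {G : Type} (y : {i // σ i = true} → G) :
    joinC f' (fun j => y (f' j)) (fun v => y v.1) = y := by
  funext v
  by_cases h : ∃ j, f' j = v
  · obtain ⟨j, rfl⟩ := h
    rw [joinC_left]
  · exact joinC_right f' _ _ ⟨v, h⟩

theorem map_joinC {G H : Type} (g : G → H) (y1 : Fin ρ → G) (y2 : Co f' → G) :
    (fun v => g (joinC f' y1 y2 v)) = joinC f' (fun j => g (y1 j)) (fun v => g (y2 v)) := by
  funext v
  by_cases h : ∃ j, f' j = v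
  · obtain ⟨j, rfl⟩ := h
    rw [joinC_left, joinC_left]
  · have h1 := joinC_right f' y1 y2 ⟨v, h⟩
    have h2 := joinC_right f' (fun j => g (y1 j)) (fun v => g (y2 v)) ⟨v, h⟩
    change joinC f' y1 y2 v = _ at h1
    change joinC f' (fun j => g (y1 j)) (fun v => g (y2 v)) v = _ at h2
    rw [h1, h2]

variable [Fintype ι] (P R : {i // σ i = true} → {i // σ i = true} → ℤ)

/-- the predicate on the torus of the stratum -/
def pV (σ : ι → Bool) (m : ι → ℕ) (S : Set (MvPolynomial ι k)) :
    Pr (Tor (k := k) {i // σ i = true}) := fun W _ _ s => VS S W (pt σ m W s)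

/-- the predicate on the small torus -/
def qV (m : ι → ℕ) (S : Set (MvPolynomial ι k)) : Pr (Tor (k := k) (Fin ρ)) := fun W _ _ y =>
  VS S W (pt σ m W fun v => mon (joinC f' y 1) (R v))

section

variable [DecidableEq {i // σ i = true}] {m : ι → ℕ} {S : Set (MvPolynomial ι k)} {P R : {i // σ i = true} → {i // σ i = true} → ℤ}
  {z : Pairs σ S → Fin ρ → ℤ}

theorem mon_join_dif (hPR : ∀ i j, ∑ v, P i v * R v j = if i = j then 1 else 0)
    (hz : ∀ t : Pairs σ S, dif σ m t = ∑ j, z t j • P (f' j)) {G : Type} [CommGroup G]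
    (y1 : Fin ρ → G) (y2 : Co f' → G) (t : Pairs σ S) :
    mon (fun v => mon (joinC f' y1 y2) (R v)) (dif σ m t) = ∏ j, y1 j ^ z t j := by
  rw [hz, mon_sum]
  refine Finset.prod_congr rfl fun j _ => ?_
  rw [mon_inv R P hPR, joinC_left]

theorem pV_join (hPR : ∀ i j, ∑ v, P i v * R v j = if i = j then 1 else 0)
    (hz : ∀ t : Pairs σ S, dif σ m t = ∑ j, z t j • P (f' j)) {W : Type} [CommRing W]
    [Algebra k W] (y1 : Fin ρ → Wˣ) (y2 : Co f' → Wˣ) :
    pV σ m S W (fun v => mon (joinC f' y1 y2) (R v)) ↔ qV f' R m S W y1 := by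
  constructor
  · intro h
    refine vs_of_eq σ m (fun t => ?_) h
    rw [mon_join_dif f' hPR hz, mon_join_dif f' hPR hz]
  · intro h
    refine vs_of_eq σ m (fun t => ?_) h
    rw [mon_join_dif f' hPR hz, mon_join_dif f' hPR hz]

/-- the stratum is a product -/
theorem good_join (hRP : ∀ v w, ∑ i, R v i * P i w = if v = w then 1 else 0)
    (hPR : ∀ i j, ∑ v, P i v * R v j = if i = j then 1 else 0)
    (hz : ∀ t : Pairs σ S, dif σ m t = ∑ j, z t j • P (f' j)) {M : Cls k}
    (h : Good M ((Tor (Fin ρ)).prod (Tor (Co f'))) (fun W _ _ x => qV f' R m S W x.1)) :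
    Good M (Tor {i // σ i = true}) (pV σ m S) := by
  refine h.iso (E' := Tor {i // σ i = true})
    (fun W _ _ (x : ((Tor (Fin ρ)).prod (Tor (Co f'))).obj W) =>
      (fun v => mon (joinC f' x.1 x.2) (R v) : {i // σ i = true} → Wˣ))
    (fun W _ _ (s : (Tor {i // σ i = true}).obj W) =>
      ((fun j => mon s (P (f' j)), fun v => mon s (P v.1)) : (Fin ρ → Wˣ) × (Co f' → Wˣ)))
    ?_ ?_ ?_ ?_ ?_
  · intro W _ _ x hx
    exact (pV_join f' hPR hz x.1 x.2).2 hx
  · intro W _ _ s hs
    refine (pV_join f' hPR hz (fun j => mon s (P (f' j))) (fun v => mon s (P v.1))).1 ?_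
    rw [joinC_self f' (fun v => mon s (P v))]
    have h1 : (fun v => mon (fun v => mon s (P v)) (R v)) = s := by
      funext v
      exact mon_inv P R hRP s v
    rw [h1]
    exact hs
  · intro W _ _ x hx
    refine Prod.ext ?_ ?_
    · funext j
      change mon (fun v => mon (joinC f' x.1 x.2) (R v)) (P (f' j)) = x.1 j
      rw [mon_inv R P hPR, joinC_left]
    · funext v
      change mon (fun v => mon (joinC f' x.1 x.2) (R v)) (P v.1) = x.2 v
      rw [mon_inv R P hPR, joinC_right]
  · intro W _ _ s hs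
    change (fun v => mon (joinC f' (fun j => mon s (P (f' j))) (fun v => mon s (P v.1))) (R v)) = s
    rw [joinC_self f' (fun v => mon s (P v))]
    funext v
    exact mon_inv P R hRP s v
  · intro W V _ _ _ _ f x hx
    funext v
    change um f (mon (joinC f' x.1 x.2) (R v)) =
      mon (joinC f' (fun j => um f (x.1 j)) (fun v => um f (x.2 v))) (R v)
    rw [um_mon, map_joinC]

/-- and conversely -/
theorem good_split (hRP : ∀ v w, ∑ i, R v i * P i w = if v = w then 1 else 0)
    (hPR : ∀ i j, ∑ v, P i v * R v j = if i = j then 1 else 0)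
    (hz : ∀ t : Pairs σ S, dif σ m t = ∑ j, z t j • P (f' j)) {M : Cls k}
    (h : Good M (Tor {i // σ i = true}) (pV σ m S)) :
    Good M ((Tor (Fin ρ)).prod (Tor (Co f'))) (fun W _ _ x => qV f' R m S W x.1) := by
  refine h.iso (E' := (Tor (Fin ρ)).prod (Tor (Co f')))
    (fun W _ _ (s : (Tor {i // σ i = true}).obj W) =>
      ((fun j => mon s (P (f' j)), fun v => mon s (P v.1)) : (Fin ρ → Wˣ) × (Co f' → Wˣ)))
    (fun W _ _ (x : ((Tor (Fin ρ)).prod (Tor (Co f'))).obj W) =>
      (fun v => mon (joinC f' x.1 x.2) (R v) : {i // σ i = true} → Wˣ))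
    ?_ ?_ ?_ ?_ ?_
  · intro W _ _ s hs
    refine (pV_join f' hPR hz (fun j => mon s (P (f' j))) (fun v => mon s (P v.1))).1 ?_
    rw [joinC_self f' (fun v => mon s (P v))]
    have h1 : (fun v => mon (fun v => mon s (P v)) (R v)) = s := by
      funext v
      exact mon_inv P R hRP s v
    rw [h1]
    exact hs
  · intro W _ _ x hx
    exact (pV_join f' hPR hz x.1 x.2).2 hx
  · intro W _ _ s hs
    change (fun v => mon (joinC f' (fun j => mon s (P (f' j))) (fun v => mon s (P v.1))) (R v)) = s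
    rw [joinC_self f' (fun v => mon s (P v))]
    funext v
    exact mon_inv P R hRP s v
  · intro W _ _ x hx
    refine Prod.ext ?_ ?_
    · funext j
      change mon (fun v => mon (joinC f' x.1 x.2) (R v)) (P (f' j)) = x.1 j
      rw [mon_inv R P hPR, joinC_left]
    · funext v
      change mon (fun v => mon (joinC f' x.1 x.2) (R v)) (P v.1) = x.2 v
      rw [mon_inv R P hPR, joinC_right]
  · intro W V _ _ _ _ f s hs
    refine Prod.ext ?_ ?_
    · funext j
      exact um_mon f s (P (f' j))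
    · funext v
      exact um_mon f s (P v.1)

/-- the small part is of finite type -/
theorem good_small (hRP : ∀ v w, ∑ i, R v i * P i w = if v = w then 1 else 0)
    (hPR : ∀ i j, ∑ v, P i v * R v j = if i = j then 1 else 0)
    (hz : ∀ t : Pairs σ S, dif σ m t = ∑ j, z t j • P (f' j))
    (h : Good (Ft k) (Tor {i // σ i = true}) (pV σ m S)) :
    Good (Ft k) (Tor (Fin ρ)) (qV f' R m S) := by
  have h1 := h.ft_eqs (fun v : Co f' => crdMon (P v.1)) (fun _ => Crd.bt _ true)
  have h0 : ∀ (W : Type) [CommRing W] [Algebra k W] (s : {i // σ i = true} → Wˣ),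
      (∀ v : Co f', (crdMon (k := k) (P v.1)).val W s = bt W true) →
      joinC f' (fun j => mon s (P (f' j))) 1 = fun v => mon s (P v) := by
    intro W _ _ s hs
    have h2 : (1 : Co f' → Wˣ) = fun v => mon s (P v.1) := by
      funext v
      ext
      exact (hs v).symm
    rw [h2]
    exact joinC_self f' (fun v => mon s (P v))
  refine h1.iso (E' := Tor (Fin ρ))
    (fun W _ _ (s : (Tor {i // σ i = true}).obj W) =>
      ((fun j => mon s (P (f' j))) : Fin ρ → Wˣ))
    (fun W _ _ (x : (Tor (Fin ρ)).obj W) =>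
      (fun v => mon (joinC f' x 1) (R v) : {i // σ i = true} → Wˣ))
    ?_ ?_ ?_ ?_ ?_
  · rintro W _ _ s ⟨hs1, hs2⟩
    change VS S W (pt σ m W fun v => mon (joinC f' (fun j => mon s (P (f' j))) 1) (R v))
    rw [h0 W s hs2]
    have h1 : (fun v => mon (fun v => mon s (P v)) (R v)) = s := by
      funext v
      exact mon_inv P R hRP s v
    rw [h1]
    exact hs1
  · intro W _ _ x hx
    refine ⟨hx, fun v => ?_⟩
    change ((mon (fun v => mon (joinC f' x 1) (R v)) (P v.1) : Wˣ) : W) = 1
    rw [mon_inv R P hPR, joinC_right]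
    rfl
  · rintro W _ _ s ⟨hs1, hs2⟩
    change (fun v => mon (joinC f' (fun j => mon s (P (f' j))) 1) (R v)) = s
    rw [h0 W s hs2]
    funext v
    exact mon_inv P R hRP s v
  · intro W _ _ x hx
    funext j
    change mon (fun v => mon (joinC f' x 1) (R v)) (P (f' j)) = x j
    rw [mon_inv R P hPR, joinC_left]
  · intro W V _ _ _ _ f s hs
    funext j
    exact um_mon f s (P (f' j))

end

end

section

variable {ι : Type} [Fintype ι] {σ : ι → Bool} {m : ι → ℕ} {S : Set (MvPolynomial ι k)}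

/-- roots of the coordinates on a stratum -/
theorem good_pV (hm : ∀ i, m i ≠ 0) {d : WithBot ℕ∞}
    (h : Good (Dm k d) (Aff ι) (fun W _ _ x => VS S W x ∧ ∀ i, cond (crd i) (σ i) W x)) :
    Good (Dm k d) (Tor {i // σ i = true}) (pV σ m S) := by
  have h1 := Dm.kumfin h {i // σ i = true} (fun v => crd v.1) (fun v => m v.1) (fun v => hm v.1)
  have hu : ∀ (W : Type) [CommRing W] [Algebra k W] (x : ι → W) (y : {i // σ i = true} → W),
      (∀ i, cond (crd (k := k) i) (σ i) W x) → (∀ v : {i // σ i = true}, y v ^ m v.1 = x v.1) →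
      (∀ v, IsUnit (y v)) := by
    intro W _ _ x y h2 h3 v
    have h4 := h2 v.1
    have h5 : IsUnit (x v.1) := by
      change (if σ v.1 = true then IsUnit (x v.1) else x v.1 = 0) at h4
      rwa [if_pos v.2] at h4
    rw [← h3 v] at h5
    exact (isUnit_pow_iff (hm v.1)).1 h5
  have hx : ∀ (W : Type) [CommRing W] [Algebra k W] (x : ι → W) (y : {i // σ i = true} → W),
      (∀ i, cond (crd (k := k) i) (σ i) W x) → (∀ v : {i // σ i = true}, y v ^ m v.1 = x v.1) →
      pt σ m W (toU y) = x := by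
    intro W _ _ x y h2 h3
    funext i
    by_cases hi : σ i = true
    · rw [pt, dif_pos hi, Units.val_pow_eq_pow_val, toU_val (hu W x y h2 h3 ⟨i, hi⟩)]
      exact h3 ⟨i, hi⟩
    · rw [pt, dif_neg hi]
      have h4 := h2 i
      change (if σ i = true then IsUnit (x i) else x i = 0) at h4
      rw [if_neg hi] at h4
      exact h4.symm
  refine h1.iso (E' := Tor {i // σ i = true})
    (fun W _ _ (x : ((Aff ι).prod (Aff {i // σ i = true})).obj W) => toU x.2)
    (fun W _ _ (s : (Tor {i // σ i = true}).obj W) =>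
      ((pt σ m W s, fun v => (s v : W)) : (ι → W) × ({i // σ i = true} → W))) ?_ ?_ ?_ ?_ ?_
  · rintro W _ _ ⟨x, y⟩ ⟨⟨h2, h3⟩, h4⟩
    change VS S W (pt σ m W (toU y))
    rw [hx W x y h3 h4]
    exact h2
  · rintro W _ _ s hs
    refine ⟨⟨hs, fun i => ?_⟩, fun v => ?_⟩
    · change (if σ i = true then IsUnit (pt σ m W s i) else pt σ m W s i = 0)
      by_cases hi : σ i = true
      · rw [if_pos hi, pt, dif_pos hi]
        exact Units.isUnit _
      · rw [if_neg hi, pt, dif_neg hi]
    · change (s v : W) ^ m v.1 = pt σ m W s v.1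
      rw [pt, dif_pos v.2, Units.val_pow_eq_pow_val]
  · rintro W _ _ ⟨x, y⟩ ⟨⟨h2, h3⟩, h4⟩
    refine Prod.ext (hx W x y h3 h4) ?_
    funext v
    exact toU_val (hu W x y h3 h4 v)
  · rintro W _ _ s hs
    exact toU_coe s
  · rintro W V _ _ _ _ f ⟨x, y⟩ ⟨⟨h2, h3⟩, h4⟩
    funext v
    ext
    change f (toU y v) = toU (fun v => f (y v)) v
    have h5 := hu W x y h3 h4 v
    rw [toU_val h5, toU_val (y := fun v => f (y v)) (h5.map f)]

/-- strata of torus complexity at most one -/
theorem good_stratum {Adm : ℕ → Prop} {M : Cls k} (hM : KClass k Adm M) (hm : ∀ i, m i ≠ 0)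
    {d : WithBot ℕ∞}
    (h : Good (Dm k d) (Aff ι) (fun W _ _ x => VS S W x ∧ ∀ i, cond (crd i) (σ i) W x))
    (hd : d + (Module.finrank ℚ (DS σ S) : WithBot ℕ∞) ≤
      ((Fintype.card {i // σ i = true} + 1 : ℕ) : WithBot ℕ∞)) :
    Good M (Tor ι) (fun W _ _ s => (∀ i, σ i = false → s i = 1) ∧
      VS S W (fun i => if σ i then ((s i ^ m i : Wˣ) : W) else 0)) := by
  classical
  have h1 := good_pV hm h
  obtain ⟨ρ, f', P, R, z, hρ, hRP, hPR, hz⟩ := exists_planar (fun t : Pairs σ S => dif σ m t)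
  have hρ2 := hρ.trans (finrank_dif_le σ m S)
  have h2 := good_small f' hRP hPR hz (Dm.ft h1)
  have h3 : Good (Cv k) (Tor (Fin ρ)) (qV f' R m S) := by
    obtain ⟨A, _, _, a, ha, hA⟩ := h2
    refine ⟨A, _, _, a, ha, hA, ?_⟩
    have h4 := good_join f' hRP hPR hz (dim_tor (Co f') ha)
    obtain ⟨B, _, _, b, hb, hB⟩ := h4
    obtain ⟨B', _, _, b', hb', hB'⟩ := h1
    obtain ⟨e⟩ := hb.equiv hb'
    have h5 : ringKrullDim B = ringKrullDim B' := ringKrullDim_eq_of_ringEquiv e.toRingEquiv
    have h6 : ringKrullDim A + (Nat.card (Co f') : WithBot ℕ∞) ≤ d := by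
      rw [h5] at hB
      exact hB.trans hB'.2
    have h7 : Nat.card (Co f') + ρ = Fintype.card {i // σ i = true} := by
      rw [Nat.card_eq_fintype_card]
      have h8 : Fintype.card {v : {i // σ i = true} // ∃ j, f' j = v} = ρ := by
        rw [Fintype.card_eq_nat_card]
        exact (Nat.card_congr (Equiv.ofInjective f' f'.injective)).symm.trans (Nat.card_fin ρ)
      have h9 := Fintype.card_subtype_compl (fun v : {i // σ i = true} => ∃ j, f' j = v)
      have h10 := Fintype.card_subtype_le (fun v : {i // σ i = true} => ∃ j, f' j = v)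
      rw [h8] at h9 h10
      change Fintype.card {v : {i // σ i = true} // ¬ ∃ j, f' j = v} + ρ = _
      omega
    set c := Nat.card (Co f')
    set F := Module.finrank ℚ (DS σ S)
    rw [← h7] at hd
    clear_value c F
    generalize ringKrullDim A = D at h6 ⊢
    have h8 : D + (c : WithBot ℕ∞) + (F : WithBot ℕ∞) ≤ ((c + ρ + 1 : ℕ) : WithBot ℕ∞) :=
      (add_le_add h6 le_rfl).trans hd
    induction D with
    | bot => exact bot_le
    | coe D =>
      have h9 : (D : ℕ∞) + c + F ≤ ((c + ρ + 1 : ℕ) : ℕ∞) := by exact_mod_cast h8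
      have h10 : (D : ℕ∞) ≤ 1 := by
        induction D with
        | top => simp at h9
        | coe D =>
          have h11 : D + c + F ≤ c + ρ + 1 := by exact_mod_cast h9
          have h12 : D ≤ 1 := by omega
          exact_mod_cast h12
      exact_mod_cast h10
  have h4 := good_join f' hRP hPR hz (good_torus hM (Co f') (h3.of_curve hM))
  refine h4.iso (E' := Tor ι)
    (fun W _ _ (s : (Tor {i // σ i = true}).obj W) =>
      (fun i => if hi : σ i = true then s ⟨i, hi⟩ else 1 : ι → Wˣ))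
    (fun W _ _ (s : (Tor ι).obj W) => (fun v => s v.1 : {i // σ i = true} → Wˣ)) ?_ ?_ ?_ ?_ ?_
  · rintro W _ _ s hs
    refine ⟨fun i hi => dif_neg (by simp [hi]), ?_⟩
    have h5 : (fun i => if σ i = true then
        (((if hi : σ i = true then s ⟨i, hi⟩ else 1) ^ m i : Wˣ) : W) else 0) = pt σ m W s := by
      funext i
      by_cases hi : σ i = true
      · rw [if_pos hi, dif_pos hi, pt, dif_pos hi]
      · rw [if_neg hi, pt, dif_neg hi]
    rw [h5]
    exact hs
  · rintro W _ _ s ⟨hs1, hs2⟩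
    change VS S W (pt σ m W fun v => s v.1)
    have h5 : pt σ m W (fun v => s v.1) =
        fun i => if σ i = true then ((s i ^ m i : Wˣ) : W) else 0 := by
      funext i
      by_cases hi : σ i = true
      · rw [if_pos hi, pt, dif_pos hi]
      · rw [if_neg hi, pt, dif_neg hi]
    rw [h5]
    exact hs2
  · rintro W _ _ s hs
    funext v
    exact dif_pos v.2
  · rintro W _ _ s ⟨hs1, hs2⟩
    funext i
    change (if hi : σ i = true then s i else 1) = s i
    by_cases hi : σ i = true
    · rw [dif_pos hi]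
    · rw [dif_neg hi, hs1 i (by simpa using hi)]
  · rintro W V _ _ _ _ f s hs
    funext i
    change um f (if hi : σ i = true then s ⟨i, hi⟩ else 1) =
      if hi : σ i = true then um f (s ⟨i, hi⟩) else 1
    by_cases hi : σ i = true
    · rw [dif_pos hi, dif_pos hi]
    · rw [dif_neg hi, dif_neg hi, map_one]

/-- Systems of equations all of whose strata have torus complexity at most one are universally
good. -/
theorem ug_torus {Adm : ℕ → Prop} {M : Cls k} (hM : KClass k Adm M)
    (h : ∀ σ : ι → Bool, ∃ d : WithBot ℕ∞,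
      Good (Dm k d) (Aff ι) (fun W _ _ x => VS S W x ∧ ∀ i, cond (crd i) (σ i) W x) ∧
      d + (Module.finrank ℚ (DS σ S) : WithBot ℕ∞) ≤
        ((Fintype.card {i // σ i = true} + 1 : ℕ) : WithBot ℕ∞)) :
    UG Adm M S := by
  intro E p z m hE hm ⟨a⟩ hε
  apply good_of_strata hM hm a hε (VS S) (good_ft_vs hE z S)
  intro σ
  obtain ⟨d, h1, h2⟩ := h σ
  exact good_stratum hM (fun i => hM.adm_ne _ (hm i)) h1 h2

end

end Pool.Agent.Helper9.FT
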