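import Pool.Agent.Helper9.FT.Torus
import Pool.Agent.Helper9.FT.SysDefs
import Pool.Agent.Helper9.FT.Dim

/-!
# The torus rule on the level of rings
-/

namespace Pool.Agent.Helper9.FT

open TensorProduct
open Pool.Agent.Helper62.TS
open Pool.Agent.Helper62.RO

variable {k : Type} [Field k] {ι : Type}

theorem rep_quot (S : Set (MvPolynomial ι k)) :
    Rep (Aff (k := k) ι) (VS S) (MvPolynomial ι k ⧸ Ideal.span S)
      (fun i => Ideal.Quotient.mk (Ideal.span S) (MvPolynomial.X i)) := by
  have h0 : ∀ f : MvPolynomial ι k, MvPolynomial.aeval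
      (fun i => Ideal.Quotient.mk (Ideal.span S) (MvPolynomial.X i)) f =
        Ideal.Quotient.mk (Ideal.span S) f := by
    intro f
    have h1 := MvPolynomial.comp_aeval_apply (f := MvPolynomial.X)
      (Ideal.Quotient.mkₐ k (Ideal.span S)) f
    rw [MvPolynomial.aeval_X_left_apply] at h1
    exact h1.symm
  refine ⟨?_, ?_, ?_⟩
  · intro W _ _ f g hg
    change MvPolynomial.aeval (fun i => f (Ideal.Quotient.mk (Ideal.span S) (MvPolynomial.X i))) g
      = 0
    have h1 := MvPolynomial.comp_aeval_apply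
      (f := fun i => Ideal.Quotient.mk (Ideal.span S) (MvPolynomial.X i)) f g
    rw [← h1, h0, Ideal.Quotient.eq_zero_iff_mem.2 (Ideal.subset_span hg), map_zero]
  · intro W _ _ x hx
    have h1 : ∀ a ∈ Ideal.span S, MvPolynomial.aeval x a = 0 := by
      have : Ideal.span S ≤ RingHom.ker (MvPolynomial.aeval x : MvPolynomial ι k →ₐ[k] W) := by
        rw [Ideal.span_le]
        intro g hg
        exact hx g hg
      exact fun a ha => this ha
    refine ⟨Ideal.Quotient.liftₐ (Ideal.span S) (MvPolynomial.aeval x) h1, ?_⟩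
    funext i
    change Ideal.Quotient.liftₐ (Ideal.span S) (MvPolynomial.aeval x) h1
      (Ideal.Quotient.mk (Ideal.span S) (MvPolynomial.X i)) = x i
    exact MvPolynomial.aeval_X x i
  · intro W _ _ f g hfg
    apply Ideal.Quotient.algHom_ext
    apply MvPolynomial.algHom_ext
    intro i
    exact congrFun hfg i

/-- the product of some coordinates -/
def crdProd (s : Finset ι) : Crd (Aff (k := k) ι) where
  val _ _ _ x := ∏ i ∈ s, x i
  nat f x := map_prod f x s

theorem vs_union (S S' : Set (MvPolynomial ι k)) (W : Type) [CommRing W] [Algebra k W]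
    (x : ι → W) : VS (S ∪ S') W x ↔ VS S W x ∧ VS S' W x :=
  ⟨fun h => ⟨fun f hf => h f (Or.inl hf), fun f hf => h f (Or.inr hf)⟩,
    fun h f hf => hf.elim (h.1 f) (h.2 f)⟩

theorem rep_congr {E : Fun k} {p p' : Pr E} {A : Type} [CommRing A] [Algebra k A] {a : E.obj A}
    (h : Rep E p A a) (hp : ∀ (W : Type) [CommRing W] [Algebra k W] (x : E.obj W),
      p W x ↔ p' W x) : Rep E p' A a :=
  ⟨fun W _ _ f => (hp W _).1 (h.mem W f), fun W _ _ x hx => h.ex W x ((hp W x).2 hx), h.uniq⟩

theorem rep_stratum (S : Set (MvPolynomial ι k)) (σ : ι → Bool) (s : Finset ι)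
    (hs : ∀ i, i ∈ s ↔ σ i = true) :
    ∃ b, Rep (Aff (k := k) ι) (fun W _ _ x => VS S W x ∧ ∀ i, cond (crd i) (σ i) W x)
      (Stratum S s) b := by
  refine ⟨_, rep_congr ((rep_quot (S ∪ MvPolynomial.X '' {i | i ∉ s})).opn (crdProd s))
    (fun W _ _ x => ?_)⟩
  rw [vs_union]
  have h3 : VS (MvPolynomial.X '' {i | i ∉ s} : Set (MvPolynomial ι k)) W x ↔
      ∀ i, i ∉ s → x i = 0 := by
    constructor
    · intro h i hi
      have := h _ ⟨i, hi, rfl⟩
      rwa [MvPolynomial.aeval_X] at this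
    · rintro h _ ⟨i, hi, rfl⟩
      rw [MvPolynomial.aeval_X]
      exact h i hi
  have h4 : IsUnit ((crdProd (k := k) s).val W x) ↔ ∀ i ∈ s, IsUnit (x i) := by
    change IsUnit (∏ i ∈ s, x i) ↔ _
    rw [IsUnit.prod_iff]
  rw [h3, h4]
  constructor
  · rintro ⟨⟨h5, h6⟩, h7⟩
    refine ⟨h5, fun i => ?_⟩
    change (if σ i = true then IsUnit (x i) else x i = 0)
    by_cases hi : σ i = true
    · rw [if_pos hi]
      exact h7 i ((hs i).2 hi)
    · rw [if_neg hi]
      exact h6 i (fun h8 => hi ((hs i).1 h8))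
  · rintro ⟨h5, h6⟩
    refine ⟨⟨h5, fun i hi => ?_⟩, fun i hi => ?_⟩
    · have h7 := h6 i
      change (if σ i = true then IsUnit (x i) else x i = 0) at h7
      rwa [if_neg (fun h8 => hi ((hs i).2 h8))] at h7
    · have h7 := h6 i
      change (if σ i = true then IsUnit (x i) else x i = 0) at h7
      rwa [if_pos ((hs i).1 hi)] at h7

theorem stratum_ft [Finite ι] (S : Set (MvPolynomial ι k)) (s : Finset ι) :
    Algebra.FiniteType k (Localization.Away
      (∏ i ∈ s, Ideal.Quotient.mk (Ideal.span (S ∪ MvPolynomial.X '' {i | i ∉ s}))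
        (MvPolynomial.X i))) :=
  Algebra.FiniteType.trans
    (S := MvPolynomial ι k ⧸ Ideal.span (S ∪ MvPolynomial.X '' {i | i ∉ s}))
    inferInstance inferInstance

theorem good_stratum_ring [Fintype ι] (S : Set (MvPolynomial ι k)) (σ : ι → Bool) (s : Finset ι)
    (hs : ∀ i, i ∈ s ↔ σ i = true) :
    Good (Dm k (ringKrullDim (Stratum S s))) (Aff ι)
      (fun W _ _ x => VS S W x ∧ ∀ i, cond (crd i) (σ i) W x) := by
  obtain ⟨b, hb⟩ := rep_stratum S σ s hs
  exact ⟨_, _, _, b, hb, stratum_ft S s, le_rfl⟩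

theorem ds_eq [Fintype ι] (S : Set (MvPolynomial ι k)) (σ : ι → Bool) (s : Finset ι)
    (hs : ∀ i, i ∈ s ↔ σ i = true) : DS σ S = Differences S s := by
  have h1 : ∀ a : ι →₀ ℕ, (∀ i, σ i = false → a i = 0) ↔ a.support ⊆ s := by
    intro a
    constructor
    · intro h i hi
      rw [hs]
      by_contra h2
      exact (Finsupp.mem_support_iff.1 hi) (h i (by simpa using h2))
    · intro h i hi
      by_contra h2
      have h3 := (hs i).1 (h (Finsupp.mem_support_iff.2 h2))
      rw [hi] at h3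
      exact Bool.false_ne_true h3
  unfold DS Differences
  simp only [h1]

/-- the torus rule -/
theorem ug_torus_ring [Finite ι] {Adm : ℕ → Prop} {M : Cls k} (hM : KClass k Adm M)
    {S : Set (MvPolynomial ι k)}
    (h : ∀ s : Finset ι, ringKrullDim (Stratum S s) + Module.finrank ℚ (Differences S s) ≤
      s.card + 1) : UG Adm M S := by
  classical
  have := Fintype.ofFinite ι
  apply ug_torus hM
  intro σ
  set s : Finset ι := Finset.univ.filter (fun i => σ i = true) with hs
  have hs1 : ∀ i, i ∈ s ↔ σ i = true := by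
    intro i
    simp [hs]
  refine ⟨_, good_stratum_ring S σ s hs1, ?_⟩
  rw [ds_eq S σ s hs1]
  have h1 : Fintype.card {i // σ i = true} = s.card := by
    rw [hs, Fintype.card_subtype]
  rw [h1]
  have h2 := h s
  rwa [Nat.cast_add, Nat.cast_one]

end Pool.Agent.Helper9.FT
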